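import Pool.Agent.H72.BF.Defs

open Polynomial Finset

namespace Pool.Agent.H72.BF

/-! Targets of the board bf_modules, part 1: the Baker-Feldman theorem. -/

/-- integral multiple of an algebraic number -/
def T_ALG : Prop := ∀ (δ : ℕ) (A : ℝ) (x : ℂ), 1 ≤ δ → 1 ≤ A → AlgB δ A x →
  ∃ b : ℤ, b ≠ 0 ∧ |(b : ℝ)| ≤ A ∧ IntB δ (A ^ δ) ((b : ℂ) * x)

/-- size of an algebraic number and of its inverse -/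
def T_ROOT : Prop := ∀ (δ : ℕ) (A : ℝ) (x : ℂ), 1 ≤ A → AlgB δ A x →
  ‖x‖ ≤ 1 + A ∧ (x ≠ 0 → ‖x‖⁻¹ ≤ 1 + A)

/-- closure properties of `Rep` -/
def T_REP : Prop := ∀ (ι : Type) [Fintype ι] [DecidableEq ι] (δ : ℕ) (θ : ι → ℂ), 1 ≤ δ →
  (∀ a : ℤ, Rep δ θ |(a : ℝ)| (a : ℂ)) ∧
  (∀ (Y Y' : ℝ) (x x' : ℂ), Rep δ θ Y x → Rep δ θ Y' x' → Rep δ θ (Y + Y') (x + x')) ∧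
  (∀ (Y : ℝ) (x : ℂ) (a : ℤ), Rep δ θ Y x → Rep δ θ (|(a : ℝ)| * Y) ((a : ℂ) * x)) ∧
  (∀ (Y B : ℝ) (i : ι) (x : ℂ), IntB δ B (θ i) → Rep δ θ Y x → Rep δ θ ((1 + B) * Y) (θ i * x))

/-- Liouville inequality -/
def T_LIO : Prop := ∀ (ι : Type) [Fintype ι] [DecidableEq ι] (δ : ℕ) (θ : ι → ℂ) (B : ι → ℝ)
  (Y : ℝ) (x : ℂ), 1 ≤ δ → 1 ≤ Y → (∀ i, IntB δ (B i) (θ i)) → Rep δ θ Y x → x ≠ 0 →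
  1 ≤ (((δ : ℝ) ^ Fintype.card ι) * Y * ∏ i, (1 + B i) ^ δ) ^ (δ ^ Fintype.card ι) * ‖x‖

def T_NU1 : Prop := ∃ c : ℝ, 0 < c ∧ ∀ h : ℕ, (Nat.lcmUpto h : ℝ) ≤ Real.exp (c * h)

def T_NU2 : Prop := ∀ h μ l k m s : ℕ, μ ≤ h → k ≤ m → ∃ c : ℤ,
  (Nat.lcmUpto h : ℂ) ^ m * ((derivative^[k] (RP h μ l)).eval (s : ℂ)) = c

def T_BIN : Prop := ∀ (h μ l L0 k : ℕ) (ρ : ℝ) (z : ℂ), 1 ≤ h → μ ≤ h → l ≤ L0 → 0 ≤ ρ →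
  ‖z‖ ≤ ρ * h → ‖(derivative^[k] (RP h μ l)).eval z‖ ≤
    k.factorial * Real.exp (h * ((L0 + 1) * (1 + Real.log (ρ + 2))))

def T_GFS : Prop := ∀ (b0 c : ℂ) (P : ℂ[X]) (m : ℕ),
  Gf b0 c P m = ∑ k ∈ range (m + 1),
    C ((m.choose k : ℂ) * b0 ^ k * c ^ (m - k)) * derivative^[k] P

def T_CFB : Prop := ∀ n δ : ℕ, ∃ c : ℝ, 0 < c ∧ ∀ (h : ℕ) (B : LF n), 1 ≤ h → Adm δ n h B →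
  ∀ (N T L0 : ℕ) (ρ : ℝ), 1 ≤ N → 1 ≤ T → 0 ≤ ρ →
  ∀ (t m : Fin (n + 1) → ℕ) (μ l : ℕ) (z : ℂ), (∀ j, t j ≤ N) → (∀ j, m j ≤ T) → μ ≤ h →
  l ≤ L0 → ‖z‖ ≤ ρ * h → ‖cf B h t μ l m z‖ ≤ Real.exp (c * (h * EE N T L0 ρ))

def T_EXF : Prop := ∀ (n : ℕ) (lam : Fin (n + 1) → ℂ) (B : LF n) (t : Fin (n + 1) → ℕ),
  B.b 0 ≠ 0 → ex lam B t = (∑ j, (t j : ℂ) * lam j) - (t 0 : ℂ) * (B.val lam / B.b 0)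

def T_SUP : Prop := ∀ (n : ℕ) (lam : Fin (n + 1) → ℂ) (δ : ℕ), ∃ c : ℝ, 0 < c ∧
  ∀ (h : ℕ) (B : LF n), 1 ≤ h → Adm δ n h B → ‖B.val lam / B.b 0‖ ≤ 1 →
  ∀ (N T L0 : ℕ) (ρ : ℝ), 1 ≤ N → 1 ≤ T → 0 ≤ ρ → ∀ (p : Idx n N h L0 → ℤ) (P : ℝ),
  (∀ u, |(p u : ℝ)| ≤ P) → ∀ m : Fin (n + 1) → ℕ, (∀ j, m j ≤ T) → ∀ z : ℂ, ‖z‖ ≤ ρ * h →
  ‖Phi lam B p m z‖ ≤ P * Real.exp (c * (h * EE N T L0 ρ))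

def T_CMP : Prop := ∀ (n : ℕ) (lam : Fin (n + 1) → ℂ) (δ : ℕ), ∃ c : ℝ, 0 < c ∧
  ∀ (h : ℕ) (B : LF n), 1 ≤ h → Adm δ n h B →
  ∀ (N T L0 : ℕ) (ρ : ℝ), 1 ≤ N → 1 ≤ T → 0 ≤ ρ → ∀ (p : Idx n N h L0 → ℤ) (P : ℝ),
  (∀ u, |(p u : ℝ)| ≤ P) → ∀ m : Fin (n + 1) → ℕ, (∀ j, m j ≤ T) → ∀ s : ℕ, (s : ℝ) ≤ ρ * h →
  (N : ℝ) * (ρ * h) * ‖B.val lam / B.b 0‖ ≤ 1 →
  ‖Phi lam B p m s - qq lam B p m s‖ ≤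
    P * Real.exp (c * (h * EE N T L0 ρ)) * ‖B.val lam / B.b 0‖

def T_DIF : Prop := ∀ (n N h L0 : ℕ) (lam : Fin (n + 1) → ℂ) (B : LF n)
  (p : Idx n N h L0 → ℤ), B.b 0 ≠ 0 → ∀ (m : Fin (n + 1) → ℕ) (z : ℂ),
  HasDerivAt (Phi lam B p m)
    ((B.b 0)⁻¹ * ∑ j, eta lam j * Phi lam B p (m + Pi.single j 1) z) z

def T_ITD : Prop := ∀ (n N h L0 : ℕ) (lam : Fin (n + 1) → ℂ) (B : LF n)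
  (p : Idx n N h L0 → ℤ), B.b 0 ≠ 0 → ∀ (r : ℕ) (m : Fin (n + 1) → ℕ) (z : ℂ) (ε : ℝ), 0 ≤ ε →
  (∀ i : Fin (n + 1) → ℕ, ∑ j, i j = r → ‖Phi lam B p (m + i) z‖ ≤ ε) →
  ‖iteratedDeriv r (Phi lam B p m) z‖ ≤ (‖B.b 0‖⁻¹ * ∑ j, ‖eta lam j‖) ^ r * ε

/-- divided difference with equal nodes -/
def T_DDE : Prop := ∀ (f : ℂ → ℂ) (τ a ℓ : ℕ) (ρ : ℝ), Differentiable ℂ f → 1 ≤ τ →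
  (a + ℓ) / τ = a / τ → ((a / τ : ℕ) : ℝ) < ρ →
  DD f τ ρ a ℓ = iteratedDeriv ℓ f (nd τ a) / ℓ.factorial

/-- recursive bound -/
def T_DDR : Prop := ∀ (f : ℂ → ℂ) (τ S : ℕ) (ρ ε : ℝ), Differentiable ℂ f → 1 ≤ τ →
  (S : ℝ) ≤ ρ → 0 ≤ ε → (∀ s < S, ∀ r < τ, ‖iteratedDeriv r f (s : ℂ)‖ ≤ ε) →
  ∀ ℓ a : ℕ, a + ℓ < τ * S → ‖DD f τ ρ a ℓ‖ ≤ ε * 2 ^ ℓ / WW τ ℓ

/-- Newton interpolation with remainder -/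
def T_DDN : Prop := ∀ (f : ℂ → ℂ) (τ S : ℕ) (ρ K : ℝ) (w : ℂ), Differentiable ℂ f → 1 ≤ τ →
  (S : ℝ) < ρ → ‖w‖ < ρ → 0 ≤ K → (∀ z : ℂ, ‖z‖ = ρ → ‖f z‖ ≤ K) →
  ‖f w - ∑ i ∈ range (τ * S), DD f τ ρ 0 i * ∏ k ∈ range i, (w - nd τ k)‖ ≤
    ((‖w‖ + S) / (ρ - S)) ^ (τ * S) * (K * ρ / (ρ - ‖w‖))

def T_WSM : Prop := ∀ (τ M : ℕ) (x : ℝ), 1 ≤ τ → 0 ≤ x →
  ∑ i ∈ range M, x ^ i / WW τ i ≤ M * (1 + x) ^ (2 * τ) * Real.exp (x * τ)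

/-- approximate Schwarz lemma -/
def T_SCH : Prop := ∀ (f : ℂ → ℂ) (τ S : ℕ) (ε K : ℝ), Differentiable ℂ f → 1 ≤ τ → 1 ≤ S →
  0 ≤ ε → 0 ≤ K → (∀ s < S, ∀ r < τ, ‖iteratedDeriv r f (s : ℂ)‖ ≤ ε) →
  (∀ z : ℂ, ‖z‖ ≤ 16 * S → ‖f z‖ ≤ K) → ∀ w : ℂ, ‖w‖ ≤ 2 * S →
  ‖f w‖ ≤ ε * ((τ * S : ℝ) * (1 + 6 * S) ^ (2 * τ) * Real.exp (6 * S * τ)) +
    2 * K * Real.exp (-(τ * S : ℝ))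

/-- representation of the `G`-part -/
def T_RG : Prop := ∀ (ι : Type) [Fintype ι] [DecidableEq ι] (δ' : ℕ) (θ : ι → ℂ) (i0 i1 : ι)
  (A Bd : ℝ) (d0 d1 : ℤ) (b0 bs : ℂ), 1 ≤ δ' → 1 ≤ A → 1 ≤ Bd → IntB δ' Bd (θ i0) →
  IntB δ' Bd (θ i1) → θ i0 = (d0 : ℂ) * b0 → θ i1 = (d1 : ℂ) * bs → |(d0 : ℝ)| ≤ A →
  |(d1 : ℝ)| ≤ A → ∀ (h μ l m s t0 N : ℕ) (D : ℝ), μ ≤ h → t0 ≤ N → 1 ≤ N → 0 ≤ D →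
  (∀ k ≤ m, ‖(derivative^[k] (RP h μ l)).eval (s : ℂ)‖ ≤ D) →
  Rep δ' θ ((Nat.lcmUpto h : ℝ) ^ m * D * (2 * N * A * (1 + Bd)) ^ m)
    (((Nat.lcmUpto h : ℂ) * d0 * d1) ^ m *
      (Gf b0 (-(bs * (t0 : ℂ))) (RP h μ l) m).eval (s : ℂ))

/-- common denominator and representation of the coefficients of `qq` -/
def T_RQ : Prop := ∀ (n : ℕ) (lam : Fin (n + 1) → ℂ), Lg n lam → ∀ δ : ℕ,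
  ∃ (δ' : ℕ) (c : ℝ), 1 ≤ δ' ∧ 0 < c ∧ ∀ (h : ℕ) (B : LF n), 1 ≤ h → Adm δ n h B →
  ∃ θ : Ix n → ℂ, (∀ i, IntB δ' (Real.exp (c * h)) (θ i)) ∧
  ∀ (N T L0 : ℕ) (ρ : ℝ), 1 ≤ N → 1 ≤ T → 1 ≤ ρ → ∀ (m : Fin (n + 1) → ℕ) (s : ℕ),
  (∀ j, m j ≤ T) → (s : ℝ) ≤ ρ * h → ∃ den : ℤ, den ≠ 0 ∧
  |(den : ℝ)| ≤ Real.exp (c * (h * EE N T L0 ρ)) ∧
  ∀ (t : Fin (n + 1) → ℕ) (μ l : ℕ), (∀ j, t j ≤ N) → μ ≤ h → l ≤ L0 →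
  Rep δ' θ (Real.exp (c * (h * EE N T L0 ρ)))
    ((den : ℂ) * (cf B h t μ l m (s : ℂ) * ∏ j, Complex.exp (lam j) ^ (t j * s)))

/-- Liouville inequality for `qq` -/
def T_LQ : Prop := ∀ (n : ℕ) (lam : Fin (n + 1) → ℂ), Lg n lam → ∀ δ : ℕ,
  ∃ (k : ℕ) (c : ℝ), 0 < c ∧ ∀ (h : ℕ) (B : LF n), 1 ≤ h → Adm δ n h B →
  ∀ (N T L0 : ℕ) (ρ : ℝ), 1 ≤ N → 1 ≤ T → 1 ≤ ρ → ∀ (p : Idx n N h L0 → ℤ) (P : ℝ), 1 ≤ P →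
  (∀ u, |(p u : ℝ)| ≤ P) → ∀ (m : Fin (n + 1) → ℕ) (s : ℕ), (∀ j, m j ≤ T) →
  (s : ℝ) ≤ ρ * h → qq lam B p m s ≠ 0 →
  1 ≤ P ^ k * Real.exp (c * (h * EE N T L0 ρ)) * ‖qq lam B p m s‖

/-- Siegel's lemma -/
def T_SIE : Prop := ∀ (U V : Type) [Fintype U] [Fintype V] (a : V → U → ℤ) (Y : ℝ), 1 ≤ Y →
  (∀ v u, |(a v u : ℝ)| ≤ Y) → 2 * Fintype.card V ≤ Fintype.card U → 0 < Fintype.card V →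
  ∃ p : U → ℤ, p ≠ 0 ∧ (∀ v, ∑ u, a v u * p u = 0) ∧ ∀ u, |(p u : ℝ)| ≤ Fintype.card U * Y

/-- the auxiliary function -/
def T_AUX : Prop := ∀ (n : ℕ) (lam : Fin (n + 1) → ℂ), Lg n lam → ∀ δ : ℕ,
  ∃ (D : ℕ) (c : ℝ), 1 ≤ D ∧ 0 < c ∧ ∀ (h : ℕ) (B : LF n), 1 ≤ h → Adm δ n h B →
  ∀ N T L0 σ : ℕ, 1 ≤ N → 1 ≤ T → 1 ≤ σ →
  2 * (T + 1) ^ (n + 1) * σ * D ≤ N ^ (n + 1) * (L0 + 1) →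
  ∃ p : Idx n N h L0 → ℤ, p ≠ 0 ∧
  (∀ u, |(p u : ℝ)| ≤ Real.exp (c * (h * EE N T L0 σ))) ∧
  ∀ m : Fin (n + 1) → ℕ, (∀ j, m j ≤ T) → ∀ s < σ * h, qq lam B p m s = 0

/-- one extrapolation step -/
def T_STEP : Prop := ∀ (n : ℕ) (lam : Fin (n + 1) → ℂ), Lg n lam → ∀ (δ : ℕ) (cp : ℝ), 0 < cp →
  ∃ K : ℝ, 1 ≤ K ∧ ∀ N τ T' T0 L0 σ : ℕ, 1 ≤ N → 1 ≤ τ → T' + τ ≤ T0 → 1 ≤ σ →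
  K * EE N T0 L0 σ ≤ τ * σ → ∃ Z : ℝ, ∀ (h : ℕ) (B : LF n), 1 ≤ h → Adm δ n h B →
  ‖B.val lam / B.b 0‖ ≤ Real.exp (-(Z * h)) → ∀ p : Idx n N h L0 → ℤ,
  (∀ u, |(p u : ℝ)| ≤ Real.exp (cp * (h * EE N T0 L0 σ))) →
  (∀ m : Fin (n + 1) → ℕ, (∀ j, m j ≤ T' + τ) → ∀ s < σ * h, qq lam B p m s = 0) →
  ∀ m : Fin (n + 1) → ℕ, (∀ j, m j ≤ T') → ∀ s < 2 * σ * h, qq lam B p m s = 0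

/-- uniqueness of exponential polynomials -/
def T_EXPU : Prop := ∀ (Γ : Finset ℂ) (c : ℂ → ℂ[X]) (d : ℕ), (0 : ℂ) ∉ Γ →
  (∀ g ∈ Γ, (c g).degree < d) →
  (∀ s < Γ.card * d, ∑ g ∈ Γ, (c g).eval (s : ℂ) * g ^ s = 0) → ∀ g ∈ Γ, c g = 0

/-- size of a group -/
def T_GRP : Prop := ∀ (n : ℕ) (lam : Fin (n + 1) → ℂ), Lg n lam → ∃ g : ℕ, 1 ≤ g ∧
  ∀ (N : ℕ) (G : Finset (Fin (n + 1) → ℕ)), 1 ≤ N → (∀ t ∈ G, ∀ j, t j < N) →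
  (∀ t ∈ G, ∀ t' ∈ G, Complex.exp (∑ j, (t j : ℂ) * lam j) =
    Complex.exp (∑ j, (t' j : ℂ) * lam j)) → G.card ≤ g * N

/-- the points `γ(t)` are distinct inside a group -/
def T_SEP : Prop := ∀ (n : ℕ) (lam : Fin (n + 1) → ℂ), Lg n lam → ∀ B : LF n, B.b 0 ≠ 0 →
  ∀ (N : ℕ) (t t' : Fin (n + 1) → ℕ), 1 ≤ N → (∀ j, t j < N) → (∀ j, t' j < N) →
  Complex.exp (∑ j, (t j : ℂ) * lam j) = Complex.exp (∑ j, (t' j : ℂ) * lam j) →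
  gam B t = gam B t' → t ≠ t' → 1 ≤ N * ‖B.val lam / B.b 0‖

def T_LAG : Prop := ∀ (n τ : ℕ) (T : Type) (G : Finset T) (x : T → Fin (n + 1) → ℂ)
  (P : T → ℂ[X]), G.card ≤ τ + 1 → (∀ t ∈ G, ∀ t' ∈ G, x t = x t' → t = t') →
  (∀ m : Fin (n + 1) → ℕ, (∀ j, m j ≤ τ) → ∑ t ∈ G, C (∏ j, x t j ^ m j) * P t = 0) →
  ∀ t ∈ G, P t = 0

def T_DEI : Prop := ∀ (n τ : ℕ) (b0 : ℂ) (T : Type) (G : Finset T) (x : T → Fin (n + 1) → ℂ)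
  (P : T → ℂ[X]), (∀ m : Fin (n + 1) → ℕ, (∀ j, m j ≤ τ) →
    ∑ t ∈ G, Gf b0 (x t 0) (P t) (m 0) * C (∏ j : Fin n, x t j.succ ^ m j.succ) = 0) →
  ∀ m : Fin (n + 1) → ℕ, (∀ j, m j ≤ τ) → ∑ t ∈ G, C (∏ j, x t j ^ m j) * P t = 0

def T_RLI : Prop := (∀ h μ l : ℕ, (RP h μ l).natDegree = μ + l * h) ∧
  ∀ (h L0 : ℕ) (p : Fin h × Fin (L0 + 1) → ℤ),
  (∑ u : Fin h × Fin (L0 + 1), C (p u : ℂ) * RP h u.1 u.2 = 0) → p = 0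

/-- zero estimate -/
def T_ZER : Prop := ∀ (n : ℕ) (lam : Fin (n + 1) → ℂ), Lg n lam → ∃ g : ℕ, 1 ≤ g ∧
  ∀ (h : ℕ) (B : LF n) (N τ L0 S : ℕ), 1 ≤ h → B.b 0 ≠ 0 → 1 ≤ N → g * N ≤ τ →
  N ^ (n + 1) * (h * (L0 + 1)) ≤ S → (N : ℝ) * ‖B.val lam / B.b 0‖ < 1 →
  ∀ p : Idx n N h L0 → ℤ,
  (∀ m : Fin (n + 1) → ℕ, (∀ j, m j ≤ τ) → ∀ s < S, qq lam B p m s = 0) → p = 0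

/-- choice of the parameters -/
def T_PAR : Prop := ∀ (K : ℝ) (n D g : ℕ), 1 ≤ K → 1 ≤ D → 1 ≤ g → ∃ N τ L0 σ J : ℕ,
  1 ≤ N ∧ 1 ≤ τ ∧ 1 ≤ σ ∧
  (∀ i ≤ J, K * EE N (τ * (J + 1)) L0 ((σ * 2 ^ i : ℕ) : ℝ) ≤ τ * ((σ * 2 ^ i : ℕ) : ℝ)) ∧
  2 * (τ * (J + 1) + 1) ^ (n + 1) * σ * D ≤ N ^ (n + 1) * (L0 + 1) ∧
  g * N ≤ τ ∧ N ^ (n + 1) * (L0 + 1) ≤ σ * 2 ^ J

/-- the main inequality when `b 0 ≠ 0` -/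
def T_BF1 : Prop := ∀ (n : ℕ) (lam : Fin (n + 1) → ℂ), Lg n lam → ∀ δ : ℕ, ∃ C : ℝ, 0 < C ∧
  ∀ (h : ℕ) (B : LF n), 1 ≤ h → Adm δ n h B → 1 ≤ Real.exp (C * h) * ‖B.val lam‖

/-- the Baker-Feldman theorem -/
def T_BF : Prop := BakerFeldman

end Pool.Agent.H72.BF
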