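import Pool.Agent.H72.BF.Basic2

open Polynomial Finset Filter

namespace Pool.Agent.H72.BF

/-! Targets of the board bf_modules, part 2: transfer to the residue field, and the new theorems. -/

/-- monomials of degree at most `d` in `n` variables -/
abbrev Mon (n d : ℕ) := {m : Fin n → Fin (d + 1) // ∑ i, (m i : ℕ) ≤ d}

/-- existence of the residue field -/
def T_PKG : Prop := ∀ H : ℕ → ℝ, (∀ j, 2 ≤ H j) → Nonempty (Pkg H)

/-- elements of `kk` are quotients of residues of integer sequences -/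
def T_KK : Prop := ∀ (H : ℕ → ℝ) (P : Pkg H) (x : P.F), x ∈ P.kk →
  ∃ a b : ℕ → ℤ, P.Bd a ∧ P.Bd b ∧ (∀ j, b j ≠ 0) ∧ x * P.evZ b = P.evZ a

/-- common denominators -/
def T_CLR : Prop := ∀ (H : ℕ → ℝ) (P : Pkg H) (ι : Type) [Fintype ι] (r : ι → P.kk),
  ∃ (q : ℕ → ℤ) (R : ι → ℕ → ℤ) (c : ℕ), P.Bd q ∧ (∀ j, q j ≠ 0) ∧
  (∀ i j, |(R i j : ℝ)| ≤ H j ^ c) ∧ ∀ i, (r i : P.F) * P.evZ q = P.evZ (R i)

/-- algebraic elements are residues of sequences of algebraic numbers of bounded degree -/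
def T_LFT : Prop := ∀ (H : ℕ → ℝ) (P : Pkg H) (x : P.F), IsAlgebraic P.kk x →
  ∃ (δ c : ℕ) (z : ℕ → ℂ), z ∈ P.O ∧ P.ev z = x ∧ ∀ j, AlgB δ (H j ^ c) (z j)

/-- Baker-Feldman in the residue field -/
def T_BFF : Prop := BakerFeldman → ∀ (n : ℕ) (lam : Fin n → ℂ), LinearIndependent ℚ lam →
  (∀ j, IsAlgebraic ℚ (Complex.exp (lam j))) → ∀ (H : ℕ → ℝ) (P : Pkg H),
  LinearIndependent P.kb (Fin.cons 1 (fun j => P.cst (lam j)) : Fin (n + 1) → P.F)

/-- evaluation of sequences of integer polynomials -/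
def T_EVP : Prop := ∀ (H : ℕ → ℝ) (P : Pkg H) (σ : Type) [Fintype σ] (d c : ℕ)
  (Q : ℕ → MvPolynomial σ ℤ), (∀ j, (Q j).totalDegree ≤ d) →
  (∀ j, ∀ m : σ →₀ ℕ, |(((Q j).coeff m : ℤ) : ℝ)| ≤ H j ^ c) →
  ∃ Q' : MvPolynomial σ P.kk, Q'.totalDegree ≤ d ∧
  (∀ m : σ →₀ ℕ, ((Q'.coeff m : P.kk) : P.F) = P.evZ (fun j => (Q j).coeff m)) ∧
  ∀ x : ℕ → σ → ℂ, (∀ i, (fun j => x j i) ∈ P.O) →
    (fun j => MvPolynomial.aeval (x j) (Q j)) ∈ P.O ∧
    MvPolynomial.aeval (fun i => P.ev (fun j => x j i)) Q' =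
      P.ev (fun j => MvPolynomial.aeval (x j) (Q j))

/-- linearly independent integer vectors stay independent -/
def T_MNR : Prop := ∀ (H : ℕ → ℝ) (P : Pkg H) (r : ℕ) (ι : Type) [Fintype ι]
  (a : ℕ → Fin r → ι → ℤ), (∀ s i, P.Bd (fun j => a j s i)) →
  (∀ j, LinearIndependent ℚ (fun (s : Fin r) (i : ι) => (a j s i : ℚ))) →
  LinearIndependent P.F (fun (s : Fin r) (i : ι) => P.evZ (fun j => a j s i))

/-- linear Cauchy-Davenport over an algebraically closed field -/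
def T_CD : Prop := ∀ (K F : Type) [Field K] [IsAlgClosed K] [Field F] [Algebra K F]
  (A B : Submodule K F), FiniteDimensional K A → FiniteDimensional K B → A ≠ ⊥ → B ≠ ⊥ →
  Module.finrank K A + Module.finrank K B ≤ Module.finrank K (A * B : Submodule K F) + 1

def T_CDP : Prop := ∀ (K F : Type) [Field K] [IsAlgClosed K] [Field F] [Algebra K F] (n d : ℕ)
  (x : Fin n → F), LinearIndependent K (Fin.cons 1 x : Fin (n + 1) → F) →
  n * d + 1 ≤ Module.finrank K ((MvPolynomial.restrictTotalDegree (Fin n) K d).map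
    (MvPolynomial.aeval x : MvPolynomial (Fin n) K →ₐ[K] F).toLinearMap)

/-- THEOREM (A) -/
def T_SUB : Prop := SubspaceBound

/-- specialisation -/
def T_SPC : Prop := ∀ (K F : Type) [Field K] [IsAlgClosed K] [Field F] [Algebra K F] (r : ℕ)
  (y : Fin r → F) (f : MvPolynomial (Fin r) K), MvPolynomial.aeval y f ≠ 0 →
  ∃ a : Fin r → K, (∀ g : MvPolynomial (Fin r) K, MvPolynomial.aeval y g = 0 →
    MvPolynomial.eval a g = 0) ∧ MvPolynomial.eval a f ≠ 0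

/-- adding one coordinate -/
def T_GST : Prop := ∀ (K F : Type) [Field K] [IsAlgClosed K] [Field F] [Algebra K F] (n d : ℕ)
  (x : Fin n → F), (∀ P : MvPolynomial (Fin n) K, P.totalDegree ≤ d →
    MvPolynomial.aeval x P = 0 → P = 0) →
  ∀ V : Submodule K F, FiniteDimensional K V → (n + d).choose d < Module.finrank K V →
  ∃ z ∈ V, z ≠ 0 ∧ ∀ Q : MvPolynomial (Fin (n + 1)) K, Q.totalDegree ≤ d →
    MvPolynomial.aeval (Fin.snoc x z : Fin (n + 1) → F) Q = 0 → Q = 0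

def T_GAL : Prop := ∀ (K F : Type) [Field K] [IsAlgClosed K] [Field F] [Algebra K F] (N M d : ℕ)
  (x0 : F) (y : Fin M → F), LinearIndependent K (Fin.cons 1 (Fin.cons x0 y) : Fin (M + 2) → F) →
  (N + d).choose d ≤ M + 1 → ∃ c : Fin N → Fin M → K,
  ∀ P : MvPolynomial (Fin (N + 1)) K, P.totalDegree ≤ d →
    MvPolynomial.aeval (Fin.cons x0 (fun i => ∑ j, algebraMap K F (c i j) * y j) :
      Fin (N + 1) → F) P = 0 → P = 0

/-- the exceptional set of a polynomial family lies on a hypersurface defined over `k` -/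
def T_HYP : Prop := ∀ (k K F : Type) [Field k] [Field K] [Field F] [Algebra k K] [Algebra K F]
  [Algebra k F] [IsScalarTower k K F] (A σ : Type) [Fintype A] [Fintype σ]
  (g : A → MvPolynomial σ F) (c : σ → K),
  LinearIndependent K (fun α => MvPolynomial.eval (fun i => algebraMap K F (c i)) (g α)) →
  ∃ Ψ : MvPolynomial σ k, Ψ ≠ 0 ∧
  (∀ m ∈ Ψ.support, ∃ mm : A → (σ →₀ ℕ), (∀ α, mm α ∈ (g α).support) ∧ m = ∑ α, mm α) ∧
  ∀ v : σ → k, ¬ LinearIndependent K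
    (fun α => MvPolynomial.eval (fun i => algebraMap k F (v i)) (g α)) →
    MvPolynomial.eval v Ψ = 0

def T_SUMA : Prop := (∀ n d : ℕ, Fintype.card (Mon n d) = (n + d).choose n) ∧
  ∀ (n d : ℕ) (i : Fin (n + 1)),
    ∑ m : Mon (n + 1) d, ((m.1 i : ℕ)) = (n + 1 + d).choose (n + 2)

/-- algebraic form of theorem (G) -/
def T_GTA : Prop := ∀ (k K F : Type) [Field k] [Field K] [IsAlgClosed K] [Field F] [Algebra k K]
  [Algebra K F] [Algebra k F] [IsScalarTower k K F] (N M d : ℕ) (x0 : F) (y : Fin M → F),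
  LinearIndependent K (Fin.cons 1 (Fin.cons x0 y) : Fin (M + 2) → F) →
  (N + d).choose d ≤ M + 1 → ∃ Ψ : MvPolynomial (Fin N × Fin M) k, Ψ ≠ 0 ∧
  (∀ i : Fin N, MvPolynomial.IsWeightedHomogeneous (fun x : Fin N × Fin M =>
    if x.1 = i then 1 else 0) Ψ ((N + 1 + d).choose (N + 2))) ∧
  ∀ v : Fin N → Fin M → k, (∃ P : MvPolynomial (Fin (N + 1)) k, P ≠ 0 ∧ P.totalDegree ≤ d ∧
    MvPolynomial.aeval (Fin.cons x0 (fun i => ∑ j, algebraMap k F (v i j) * y j) :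
      Fin (N + 1) → F) P = 0) →
    MvPolynomial.eval (fun x : Fin N × Fin M => v x.1 x.2) Ψ = 0

/-- THEOREM (G) -/
def T_GTF : Prop := GenericTuples

/-- quadratic relation: two shapes -/
def T_QCL : Prop := ∀ (K F : Type) [Field K] [CharZero K] [IsAlgClosed K] [Field F] [Algebra K F]
  (t y : F), LinearIndependent K ![1, t, y] →
  (∃ Q : MvPolynomial (Fin 2) K, Q ≠ 0 ∧ Q.totalDegree ≤ 2 ∧ MvPolynomial.aeval ![t, y] Q = 0) →
  (∃ l0 l1 q0 q1 q2 : K, (y - algebraMap K F l0 - algebraMap K F l1 * t) ^ 2 =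
    algebraMap K F q0 + algebraMap K F q1 * t + algebraMap K F q2 * t ^ 2) ∨
  (∃ e0 e1 q0 q1 q2 : K, (e0 ≠ 0 ∨ e1 ≠ 0) ∧
    (algebraMap K F e0 + algebraMap K F e1 * t) * y =
    algebraMap K F q0 + algebraMap K F q1 * t + algebraMap K F q2 * t ^ 2)

/-- no three quadratic relations in a pencil -/
def T_QAD : Prop := ∀ (K F : Type) [Field K] [CharZero K] [IsAlgClosed K] [Field F] [Algebra K F]
  (t y1 y2 : F) (a b : K), LinearIndependent K ![1, t, y1, y2] → a ≠ 0 → b ≠ 0 →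
  (∃ Q : MvPolynomial (Fin 2) K, Q ≠ 0 ∧ Q.totalDegree ≤ 2 ∧ MvPolynomial.aeval ![t, y1] Q = 0) →
  (∃ Q : MvPolynomial (Fin 2) K, Q ≠ 0 ∧ Q.totalDegree ≤ 2 ∧ MvPolynomial.aeval ![t, y2] Q = 0) →
  ¬ (∃ Q : MvPolynomial (Fin 2) K, Q ≠ 0 ∧ Q.totalDegree ≤ 2 ∧
    MvPolynomial.aeval ![t, algebraMap K F a * y1 + algebraMap K F b * y2] Q = 0)

/-- THEOREM (Q) -/
def T_QPF : Prop := QuadraticPairs

/-- multiples of two coprime plane curves -/
def T_KOS : Prop := ∀ (d e : ℕ) (P Q : MvPolynomial (Fin 2) ℤ), Irreducible P → Irreducible Q →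
  ¬ Associated P Q → 1 ≤ P.totalDegree → 1 ≤ Q.totalDegree → P.totalDegree ≤ d →
  Q.totalDegree ≤ d → 2 * d ≤ e →
  (e + 2).choose 2 ≤ d ^ 2 + Module.finrank ℚ (Submodule.span ℚ
    {f : MvPolynomial (Fin 2) ℚ | ∃ m : Fin 2 →₀ ℕ,
      (m.degree + P.totalDegree ≤ e ∧
        f = MvPolynomial.map (Int.castRingHom ℚ) (MvPolynomial.monomial m 1 * P)) ∨
      (m.degree + Q.totalDegree ≤ e ∧
        f = MvPolynomial.map (Int.castRingHom ℚ) (MvPolynomial.monomial m 1 * Q))})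

/-- THEOREM (C) -/
def T_PSF : Prop := PairsSparse

def T_CNT : Prop := PairsSparse → PairsCount

end Pool.Agent.H72.BF
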