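import Pool.Agent.H72.BF.Targets2

open Polynomial Finset Filter

namespace Pool.Agent.H72.BF

/-! Targets of the board bf_modules, part 5: the exceptional directions lie in few subspaces. -/

/-- a nonzero relation of degree at most `d` between `t` and `z` over `K` -/
def RelD (K : Type) {F : Type} [Field K] [Field F] [Algebra K F] (t : F) (d : ℕ) (z : F) : Prop :=
  ∃ Q : MvPolynomial (Fin 2) K, Q ≠ 0 ∧ Q.totalDegree ≤ d ∧ MvPolynomial.aeval ![t, z] Q = 0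

/-- a linear space of functions of degree at most `d` has dimension at most `d + 1` -/
def T_SPT : Prop := ∀ (K F : Type) [Field K] [CharZero K] [IsAlgClosed K] [Field F] [Algebra K F]
  (t : F), Transcendental K t → ∀ (d : ℕ) (W : Submodule K F), FiniteDimensional K W →
  (∀ z ∈ W, RelD K t d z) → Module.finrank K W ≤ d + 1

/-- the linear factors of a split form survive specialisation -/
def T_LFS : Prop := ∀ (K A Ω κ : Type) [Field K] [CommRing A] [Field Ω] [Field κ]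
  [Algebra K A] [Algebra K κ] (ψ : A →+* Ω) (φ : A →ₐ[K] κ) (m e : ℕ) (ω : Fin e → Fin m → Ω)
  (g : Ω) (G : (MvPolynomial (Fin m) A)[X]), Function.Injective ψ →
  G.map (MvPolynomial.map ψ) = C (MvPolynomial.C g) *
    ∏ i, (X - C (∑ j, MvPolynomial.C (ω i j) * MvPolynomial.X j)) →
  G.map (MvPolynomial.map φ.toRingHom) ≠ 0 →
  ∃ Hs : Finset (Submodule K (Fin m → K)), Hs.card ≤ e ∧ (∀ U ∈ Hs, U ≠ ⊤) ∧
    ∀ v : Fin m → K,
      G.map (MvPolynomial.eval₂Hom φ.toRingHom (fun j => algebraMap K κ (v j))) = 0 →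
      ∃ U ∈ Hs, v ∈ U

/-- the norm form -/
def T_NRM : Prop := ∀ D m : ℕ, ∃ B : ℕ, ∀ (K F : Type) [Field K] [CharZero K] [IsAlgClosed K]
  [Field F] [Algebra K F] (t : F), Transcendental K t → ∀ w : Fin m → F, (∀ j, RelD K t D (w j)) →
  ∃ (Ω : Type) (_ : Field Ω) (_ : Algebra F Ω) (e : ℕ) (ω : Fin e → Fin m → Ω) (g : K[X])
    (G : (MvPolynomial (Fin m) K[X])[X]), e ≤ B ∧ g.natDegree ≤ B ∧ g ≠ 0 ∧
    (∃ i0, ∀ j, ω i0 j = algebraMap F Ω (w j)) ∧
    (∀ i i', i ≠ i' → ω i ≠ ω i') ∧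
    G.map (MvPolynomial.map ((algebraMap F Ω).comp (aeval t : K[X] →ₐ[K] F).toRingHom)) =
      C (MvPolynomial.C (algebraMap F Ω (aeval t g))) *
        ∏ i, (X - C (∑ j, MvPolynomial.C (ω i j) * MvPolynomial.X j)) ∧
    (∀ c : K, G.map (MvPolynomial.map (evalRingHom c)) ≠ 0) ∧
    (∀ (v : Fin m → K) (Q : K[X][X]),
      Q.eval₂ (aeval t : K[X] →ₐ[K] F).toRingHom (∑ j, algebraMap K F (v j) * w j) = 0 →
      ∀ i, Q.eval₂ ((algebraMap F Ω).comp (aeval t : K[X] →ₐ[K] F).toRingHom)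
        (∑ j, algebraMap F Ω (algebraMap K F (v j)) * ω i j) = 0)

/-- one step: everything or few proper subspaces -/
def T_STP : Prop := ∀ d m : ℕ, ∃ b : ℕ, ∀ (K F : Type) [Field K] [CharZero K] [IsAlgClosed K]
  [Field F] [Algebra K F] (t : F), Transcendental K t → ∀ w : Fin m → F, (∀ j, RelD K t d (w j)) →
  (∀ v : Fin m → K, RelD K t d (∑ j, algebraMap K F (v j) * w j)) ∨
  ∃ Hs : Finset (Submodule K (Fin m → K)), Hs.card ≤ b ∧ (∀ U ∈ Hs, U ≠ ⊤) ∧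
    ∀ v : Fin m → K, RelD K t d (∑ j, algebraMap K F (v j) * w j) → ∃ U ∈ Hs, v ∈ U

/-- the functions of degree at most `d` in a linear space form few linear subspaces -/
def T_CVR : Prop := ∀ d M : ℕ, ∃ s : ℕ, ∀ (K F : Type) [Field K] [CharZero K] [IsAlgClosed K]
  [Field F] [Algebra K F] (t : F), Transcendental K t → ∀ y : Fin M → F,
  ∃ Ws : Finset (Submodule K (Fin M → K)), Ws.card ≤ s ∧
    (∀ W ∈ Ws, ∀ v ∈ W, RelD K t d (∑ j, algebraMap K F (v j) * y j)) ∧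
    ∀ v : Fin M → K, RelD K t d (∑ j, algebraMap K F (v j) * y j) → ∃ W ∈ Ws, v ∈ W

/-- algebraic form of the theorem -/
def T_EXS : Prop := ∀ d M : ℕ, ∃ s : ℕ, ∀ (K F : Type) [Field K] [CharZero K] [IsAlgClosed K]
  [Field F] [Algebra K F] (t : F) (y : Fin M → F),
  LinearIndependent K (Fin.cons 1 (Fin.cons t y) : Fin (M + 2) → F) →
  ∃ W : Fin s → Submodule K (Fin M → K), (∀ i, Module.finrank K (W i) ≤ d - 1) ∧
    ∀ v : Fin M → K, RelD K t d (∑ j, algebraMap K F (v j) * y j) → ∃ i, v ∈ W i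

/-- coverings by few subspaces have finite certificates -/
def T_CRT : Prop := ∀ s r : ℕ, ∃ N : ℕ, ∀ (k : Type) [Field k] (M : ℕ) (B : Set (Fin M → k)),
  (∀ b : Fin N → Fin M → k, (∀ i, b i ∈ B) → ∃ U : Fin s → Submodule k (Fin M → k),
    (∀ i, Module.finrank k (U i) ≤ r) ∧ ∀ i, ∃ l, b i ∈ U l) →
  ∃ U : Fin s → Submodule k (Fin M → k), (∀ i, Module.finrank k (U i) ≤ r) ∧
    ∀ b ∈ B, ∃ l, b ∈ U l

/-- THEOREM: at every height and for every nonzero `v` the vectors `w` for which the pair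
`(v · mu, w · mu)` is exceptional in degree `d` lie in boundedly many subspaces of dimension at
most `d` containing `v` -/
def ExceptionalSubspaces : Prop := ∀ d M : ℕ, ∃ s : ℕ, ∀ (mu : Fin M → ℂ),
    LinearIndependent ℚ mu → (∀ j, IsAlgebraic ℚ (Complex.exp (mu j))) →
    ∃ C : ℝ, 0 < C ∧ ∀ H : ℝ, 2 ≤ H → ∀ v : Fin M → ℤ, v ≠ 0 → (∀ i, |(v i : ℝ)| ≤ H) →
    ∃ U : Fin s → Submodule ℚ (Fin M → ℚ),
      (∀ i, Module.finrank ℚ (U i) ≤ d ∧ (fun j => (v j : ℚ)) ∈ U i) ∧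
      ∀ w : Fin M → ℤ, (∀ i, |(w i : ℝ)| ≤ H) → (∀ i, (fun j => (w j : ℚ)) ∉ U i) →
        ∀ P : MvPolynomial (Fin 2) ℤ, P ≠ 0 → P.totalDegree ≤ d →
          (∀ m : Fin 2 →₀ ℕ, |((P.coeff m : ℤ) : ℝ)| ≤ H) →
          1 ≤ H ^ C * ‖MvPolynomial.aeval ![∑ j, (v j : ℂ) * mu j, ∑ j, (w j : ℂ) * mu j] P‖

def T_ESF : Prop := ExceptionalSubspaces

end Pool.Agent.H72.BF
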