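import Pool.Agent.H72.BF.Assemble
import Pool.Agent.H72.BF.Targets2
import Pool.Agent.H14.BF.GAL
import Pool.Agent.H14.BF.GST
import Pool.Agent.H14.BF.GTA
import Pool.Agent.H29.BF.LFT
import Pool.Agent.H29.BF.PKG
import Pool.Agent.H35.BF.GTF
import Pool.Agent.H57.BF.KK
import Pool.Agent.H57.BF.SUMA
import Pool.Agent.H69.BF.HYP
import Pool.Agent.H78.BF.CDP
import Pool.Agent.H78.BF.SPC
import Pool.Agent.H78.BF.SUB
import Pool.Agent.H84.BF.BFF
import Pool.Agent.H84.BF.EVP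
import Pool.Agent.H84.BF.MNR

namespace Pool.Agent.H72.BF

theorem bffAll : T_BFF := H84.BF.bff (H29.BF.lft H57.BF.clr)

theorem subspaceBound : SubspaceBound :=
  H78.BF.sub bakerFeldman H29.BF.pkg bffAll H84.BF.evp H84.BF.mnr H57.BF.suma

theorem genericTuples : GenericTuples :=
  H35.BF.gtf bakerFeldman H29.BF.pkg bffAll H84.BF.evp H57.BF.clr
    (H14.BF.gta (H14.BF.gal (H14.BF.gst H78.BF.spc H57.BF.suma)) H69.BF.hyp H57.BF.suma)

end Pool.Agent.H72.BF
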