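import Pool.Agent.H72.BF.Defs2

open Polynomial Finset Filter

namespace Pool.Agent.H72.BF

variable {H : ℕ → ℝ} (P : Pkg H)

theorem Pkg.ev_of_mem {z : ℕ → ℂ} (h : z ∈ P.O) : P.ev z = P.π ⟨z, h⟩ := by
  simp [Pkg.ev, h]

theorem Pkg.ev_add {z w : ℕ → ℂ} (hz : z ∈ P.O) (hw : w ∈ P.O) :
    P.ev (z + w) = P.ev z + P.ev w := by
  rw [P.ev_of_mem hz, P.ev_of_mem hw, P.ev_of_mem (P.O.add_mem hz hw), ← map_add]
  rfl

theorem Pkg.ev_mul {z w : ℕ → ℂ} (hz : z ∈ P.O) (hw : w ∈ P.O) :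
    P.ev (z * w) = P.ev z * P.ev w := by
  rw [P.ev_of_mem hz, P.ev_of_mem hw, P.ev_of_mem (P.O.mul_mem hz hw), ← map_mul]
  rfl

theorem Pkg.ev_neg {z : ℕ → ℂ} (hz : z ∈ P.O) : P.ev (-z) = -P.ev z := by
  rw [P.ev_of_mem hz, P.ev_of_mem (P.O.neg_mem hz), ← map_neg]
  rfl

theorem Pkg.ev_sub {z w : ℕ → ℂ} (hz : z ∈ P.O) (hw : w ∈ P.O) :
    P.ev (z - w) = P.ev z - P.ev w := by
  rw [P.ev_of_mem hz, P.ev_of_mem hw, P.ev_of_mem (P.O.sub_mem hz hw), ← map_sub]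
  rfl

theorem Pkg.ev_one : P.ev 1 = 1 := by
  rw [P.ev_of_mem P.O.one_mem]
  exact map_one P.π

theorem Pkg.ev_zero : P.ev 0 = 0 := by
  rw [P.ev_of_mem P.O.zero_mem]
  exact map_zero P.π

theorem Pkg.ev_pow {z : ℕ → ℂ} (hz : z ∈ P.O) (k : ℕ) : P.ev (z ^ k) = P.ev z ^ k := by
  rw [P.ev_of_mem hz, P.ev_of_mem (P.O.pow_mem hz k), ← map_pow]
  rfl

theorem Pkg.ev_sum {ι : Type*} (s : Finset ι) (z : ι → ℕ → ℂ) (hz : ∀ i ∈ s, z i ∈ P.O) :
    P.ev (∑ i ∈ s, z i) = ∑ i ∈ s, P.ev (z i) := by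
  classical
  induction s using Finset.induction_on with
  | empty => simpa using P.ev_zero
  | insert a s ha ih =>
    rw [Finset.sum_insert ha, Finset.sum_insert ha, P.ev_add (hz a (by simp)) , ih]
    · intro i hi; exact hz i (by simp [hi])
    · exact P.O.sum_mem fun i hi => hz i (by simp [hi])

theorem Pkg.ev_prod {ι : Type*} (s : Finset ι) (z : ι → ℕ → ℂ) (hz : ∀ i ∈ s, z i ∈ P.O) :
    P.ev (∏ i ∈ s, z i) = ∏ i ∈ s, P.ev (z i) := by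
  classical
  induction s using Finset.induction_on with
  | empty => simpa using P.ev_one
  | insert a s ha ih =>
    rw [Finset.prod_insert ha, Finset.prod_insert ha, P.ev_mul (hz a (by simp)), ih]
    · intro i hi; exact hz i (by simp [hi])
    · exact P.O.prod_mem fun i hi => hz i (by simp [hi])

theorem Pkg.ev_eq_zero {z : ℕ → ℂ} (hz : z ∈ P.O) :
    P.ev z = 0 ↔ ∀ c : ℕ, ∀ᶠ j in (hyperfilter ℕ : Filter ℕ), ‖z j‖ * H j ^ c ≤ 1 := by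
  rw [P.ev_of_mem hz, P.ker]

theorem Pkg.exists_ev (x : P.F) : ∃ z : ℕ → ℂ, z ∈ P.O ∧ P.ev z = x := by
  obtain ⟨z, hz⟩ := P.surj x
  exact ⟨z, z.2, by rw [P.ev_of_mem z.2]; exact hz⟩

theorem Pkg.mem_of_le {z : ℕ → ℂ} (c : ℕ) (h : ∀ j, ‖z j‖ ≤ H j ^ c) : z ∈ P.O :=
  (P.memO z).2 ⟨c, Filter.Eventually.of_forall h⟩

include P in
theorem Pkg.one_le_pow (j c : ℕ) : 1 ≤ H j ^ c :=
  one_le_pow₀ (by linarith [P.hH j])

include P in
theorem Pkg.pos (j : ℕ) : 0 < H j := by linarith [P.hH j]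

theorem Pkg.const_mem (z : ℂ) : (fun _ : ℕ => z) ∈ P.O := by
  obtain ⟨c, hc⟩ := pow_unbounded_of_one_lt ‖z‖ (by norm_num : (1 : ℝ) < 2)
  refine P.mem_of_le c fun j => hc.le.trans ?_
  exact pow_le_pow_left₀ (by norm_num) (P.hH j) c

theorem Pkg.ev_congr {z w : ℕ → ℂ} (hz : z ∈ P.O)
    (h : ∀ᶠ j in (hyperfilter ℕ : Filter ℕ), z j = w j) : P.ev z = P.ev w ∧ w ∈ P.O := by
  have hw : w ∈ P.O := by
    obtain ⟨c, hc⟩ := (P.memO z).1 hz
    refine (P.memO w).2 ⟨c, ?_⟩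
    filter_upwards [h, hc] with j h1 h2
    rwa [← h1]
  refine ⟨?_, hw⟩
  have h0 : P.ev (z - w) = 0 := by
    rw [P.ev_eq_zero (P.O.sub_mem hz hw)]
    intro c
    filter_upwards [h] with j hj
    simp [hj]
  rw [P.ev_sub hz hw] at h0
  exact sub_eq_zero.1 h0

theorem Pkg.cst_add (z w : ℂ) : P.cst (z + w) = P.cst z + P.cst w :=
  P.ev_add (P.const_mem z) (P.const_mem w)

theorem Pkg.cst_mul (z w : ℂ) : P.cst (z * w) = P.cst z * P.cst w :=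
  P.ev_mul (P.const_mem z) (P.const_mem w)

theorem Pkg.cst_eq_zero (z : ℂ) : P.cst z = 0 ↔ z = 0 := by
  constructor
  · intro h
    rw [Pkg.cst, P.ev_eq_zero (P.const_mem z)] at h
    by_contra hz
    have hpos : 0 < ‖z‖ := norm_pos_iff.2 hz
    obtain ⟨c, hc⟩ := pow_unbounded_of_one_lt (1 / ‖z‖) (by norm_num : (1 : ℝ) < 2)
    obtain ⟨j, hj⟩ := (h c).exists
    have h2 : (2 : ℝ) ^ c ≤ H j ^ c := pow_le_pow_left₀ (by norm_num) (P.hH j) c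
    have h3 : 1 < ‖z‖ * 2 ^ c := by
      rw [div_lt_iff₀ hpos] at hc
      linarith [mul_comm (2 ^ c : ℝ) ‖z‖]
    have h4 : ‖z‖ * 2 ^ c ≤ ‖z‖ * H j ^ c := mul_le_mul_of_nonneg_left h2 hpos.le
    linarith
  · rintro rfl
    exact P.ev_zero

/-! ### integer sequences -/

theorem Pkg.bd_of_le {z : ℕ → ℤ} (c : ℕ) (h : ∀ j, |(z j : ℝ)| ≤ H j ^ c) : P.Bd z := by
  refine P.mem_of_le c fun j => ?_
  simpa using h j

theorem Pkg.Bd.add {P : Pkg H} {z w : ℕ → ℤ} (hz : P.Bd z) (hw : P.Bd w) :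
    P.Bd (fun j => z j + w j) := by
  have := P.O.add_mem hz hw
  simpa [Pkg.Bd, Pi.add_def] using this

theorem Pkg.Bd.mul {P : Pkg H} {z w : ℕ → ℤ} (hz : P.Bd z) (hw : P.Bd w) :
    P.Bd (fun j => z j * w j) := by
  have := P.O.mul_mem hz hw
  simpa [Pkg.Bd, Pi.mul_def] using this

theorem Pkg.Bd.neg {P : Pkg H} {z : ℕ → ℤ} (hz : P.Bd z) : P.Bd (fun j => - z j) := by
  have := P.O.neg_mem hz
  simpa [Pkg.Bd, Pi.neg_def] using this

theorem Pkg.bd_const (a : ℤ) : P.Bd (fun _ => a) := by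
  simpa [Pkg.Bd] using P.const_mem (a : ℂ)

theorem Pkg.evZ_add {z w : ℕ → ℤ} (hz : P.Bd z) (hw : P.Bd w) :
    P.evZ (fun j => z j + w j) = P.evZ z + P.evZ w := by
  rw [Pkg.evZ, Pkg.evZ, Pkg.evZ, ← P.ev_add hz hw]
  congr 1
  ext j
  simp

theorem Pkg.evZ_mul {z w : ℕ → ℤ} (hz : P.Bd z) (hw : P.Bd w) :
    P.evZ (fun j => z j * w j) = P.evZ z * P.evZ w := by
  rw [Pkg.evZ, Pkg.evZ, Pkg.evZ, ← P.ev_mul hz hw]
  congr 1
  ext j
  simp

theorem Pkg.evZ_const (a : ℤ) : P.evZ (fun _ => a) = (a : P.F) := by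
  have h : ∀ n : ℕ, P.evZ (fun _ => (n : ℤ)) = (n : P.F) := by
    intro n
    induction n with
    | zero => simpa [Pkg.evZ, Pi.zero_def] using P.ev_zero
    | succ n ih =>
      have := P.evZ_add (P.bd_const (n : ℤ)) (P.bd_const 1)
      rw [ih] at this
      have h1 : P.evZ (fun _ => (1 : ℤ)) = 1 := by simpa [Pkg.evZ, Pi.one_def] using P.ev_one
      rw [h1] at this
      push_cast
      simpa using this
  rcases a with n | n
  · simpa using h n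
  · have hh := P.evZ_add (P.bd_const (Int.negSucc n)) (P.bd_const ((n + 1 : ℕ) : ℤ))
    have h0 : (fun _ : ℕ => Int.negSucc n + ((n + 1 : ℕ) : ℤ)) = fun _ => (0 : ℤ) := by
      ext
      omega
    rw [h0, h (n + 1)] at hh
    have h1 : P.evZ (fun _ => (0 : ℤ)) = 0 := by simpa using h 0
    rw [h1] at hh
    rw [Int.cast_negSucc]
    exact (eq_neg_of_add_eq_zero_left hh.symm)

theorem Pkg.evZ_eq_zero {z : ℕ → ℤ} (hz : P.Bd z) :
    P.evZ z = 0 ↔ ∀ᶠ j in (hyperfilter ℕ : Filter ℕ), z j = 0 := by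
  rw [Pkg.evZ, P.ev_eq_zero hz]
  constructor
  · intro h
    filter_upwards [h 1] with j hj
    by_contra hne
    have h1 : (1 : ℝ) ≤ ‖((z j : ℤ) : ℂ)‖ := by
      rw [Complex.norm_intCast]
      exact_mod_cast Int.one_le_abs hne
    have h2 := P.hH j
    rw [pow_one] at hj
    nlinarith
  · intro h c
    filter_upwards [h] with j hj
    simp [hj]

theorem Pkg.evZ_ne_zero {z : ℕ → ℤ} (hz : P.Bd z) (h : ∀ j, z j ≠ 0) : P.evZ z ≠ 0 := by
  rw [Ne, P.evZ_eq_zero hz]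
  intro h2
  obtain ⟨j, hj⟩ := h2.exists
  exact h j hj

theorem Pkg.evZ_mem {z : ℕ → ℤ} (hz : P.Bd z) : P.evZ z ∈ P.kk :=
  Subfield.subset_closure ⟨z, hz, rfl⟩

/-- an eventually nonzero or eventually zero dichotomy -/
theorem Pkg.evZ_dich {z : ℕ → ℤ} (hz : P.Bd z) (h : P.evZ z ≠ 0) :
    ∀ᶠ j in (hyperfilter ℕ : Filter ℕ), z j ≠ 0 := by
  rw [Ne, P.evZ_eq_zero hz] at h
  exact (Ultrafilter.eventually_not (f := hyperfilter ℕ)).2 h

instance : IsAlgClosed P.kb := by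
  have h : IsAlgClosure P.kk (algebraicClosure P.kk P.F) := inferInstance
  exact IsAlgClosure.isAlgClosed P.kk

end Pool.Agent.H72.BF
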