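import Mathlib

open Polynomial Finset

namespace Pool.Agent.H72.BF

noncomputable section

/-! ### algebraic numbers of bounded degree and height -/

/-- `x` is a root of a nonzero integer polynomial of degree at most `δ` whose coefficients are at
most `A` in absolute value. -/
def AlgB (δ : ℕ) (A : ℝ) (x : ℂ) : Prop :=
  ∃ p : ℤ[X], p ≠ 0 ∧ p.natDegree ≤ δ ∧ (∀ i, |(p.coeff i : ℝ)| ≤ A) ∧ aeval x p = 0

/-- `y` is a root of a monic integer polynomial of degree exactly `δ` with coefficients at most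
`B` in absolute value. -/
def IntB (δ : ℕ) (B : ℝ) (y : ℂ) : Prop :=
  ∃ q : ℤ[X], q.Monic ∧ q.natDegree = δ ∧ (∀ i, |(q.coeff i : ℝ)| ≤ B) ∧ aeval y q = 0

/-- `x` is an integer combination of the monomials `θ^e`, all exponents below `δ`, with
coefficients at most `Y`. -/
def Rep {ι : Type} [Fintype ι] [DecidableEq ι] (δ : ℕ) (θ : ι → ℂ) (Y : ℝ) (x : ℂ) : Prop :=
  ∃ c : (ι → Fin δ) → ℤ, (∀ e, |(c e : ℝ)| ≤ Y) ∧
    x = ∑ e : ι → Fin δ, (c e : ℂ) * ∏ i, θ i ^ (e i : ℕ)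

/-! ### Feldman polynomials -/

/-- the binomial polynomial `X (X-1) ... (X-a+1) / a!` -/
def binP (a : ℕ) : ℂ[X] := C ((a.factorial : ℂ)⁻¹) * ∏ i ∈ Finset.range a, (X - C (i : ℂ))

def RP (h μ l : ℕ) : ℂ[X] := binP μ * binP h ^ l

/-- `(b0 d/dz + c)^m P` -/
def Gf (b0 c : ℂ) (P : ℂ[X]) : ℕ → ℂ[X]
  | 0 => P
  | (m + 1) => C b0 * derivative (Gf b0 c P m) + C c * Gf b0 c P m

/-! ### the linear form -/

/-- the logarithms: `ℚ`-linearly independent, with algebraic exponentials -/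
structure Lg (n : ℕ) (lam : Fin (n + 1) → ℂ) : Prop where
  li : LinearIndependent ℚ lam
  alg : ∀ j, IsAlgebraic ℚ (Complex.exp (lam j))

/-- a linear form `bs + ∑ b_j X_j` -/
structure LF (n : ℕ) where
  bs : ℂ
  b : Fin (n + 1) → ℂ

def LF.val {n : ℕ} (B : LF n) (lam : Fin (n + 1) → ℂ) : ℂ := B.bs + ∑ j, B.b j * lam j

/-- coefficients algebraic of degree at most `δ` and height at most `e^h`, `b 0 ≠ 0` -/
structure Adm (δ n h : ℕ) (B : LF n) : Prop where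
  hs : AlgB δ (Real.exp h) B.bs
  hb : ∀ j, AlgB δ (Real.exp h) (B.b j)
  h0 : B.b 0 ≠ 0

/-- the numbers `γ_0 = -b_s t_0`, `γ_j = b_0 t_j - b_j t_0` -/
def gam {n : ℕ} (B : LF n) (t : Fin (n + 1) → ℕ) : Fin (n + 1) → ℂ :=
  Fin.cases (-(B.bs * (t 0 : ℂ))) (fun j => B.b 0 * (t j.succ : ℂ) - B.b j.succ * (t 0 : ℂ))

/-- `η_0 = 1`, `η_j = λ_j` -/
def eta {n : ℕ} (lam : Fin (n + 1) → ℂ) : Fin (n + 1) → ℂ :=
  Fin.cases 1 (fun j => lam j.succ)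

/-- the exponent of the auxiliary function -/
def ex {n : ℕ} (lam : Fin (n + 1) → ℂ) (B : LF n) (t : Fin (n + 1) → ℕ) : ℂ :=
  (∑ j, eta lam j * gam B t j) / B.b 0

/-- index set of the unknown coefficients -/
abbrev Idx (n N h L0 : ℕ) := (Fin (n + 1) → Fin N) × Fin h × Fin (L0 + 1)

def tt {n N h L0 : ℕ} (u : Idx n N h L0) : Fin (n + 1) → ℕ := fun j => (u.1 j : ℕ)

/-- the algebraic coefficient -/
def cf {n : ℕ} (B : LF n) (h : ℕ) (t : Fin (n + 1) → ℕ) (μ l : ℕ) (m : Fin (n + 1) → ℕ) (z : ℂ) :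
    ℂ :=
  (Gf (B.b 0) (gam B t 0) (RP h μ l) (m 0)).eval z * ∏ j : Fin n, gam B t j.succ ^ m j.succ

/-- the auxiliary functions -/
def Phi {n N h L0 : ℕ} (lam : Fin (n + 1) → ℂ) (B : LF n) (p : Idx n N h L0 → ℤ)
    (m : Fin (n + 1) → ℕ) (z : ℂ) : ℂ :=
  ∑ u : Idx n N h L0, (p u : ℂ) * cf B h (tt u) u.2.1 u.2.2 m z * Complex.exp (ex lam B (tt u) * z)

/-- the algebraic values -/
def qq {n N h L0 : ℕ} (lam : Fin (n + 1) → ℂ) (B : LF n) (p : Idx n N h L0 → ℤ)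
    (m : Fin (n + 1) → ℕ) (s : ℕ) : ℂ :=
  ∑ u : Idx n N h L0, (p u : ℂ) * cf B h (tt u) u.2.1 u.2.2 m (s : ℂ) *
    ∏ j, Complex.exp (lam j) ^ (tt u j * s)

/-- the cost function (to be multiplied by a constant times `h`) -/
def EE (N T L0 : ℕ) (σ : ℝ) : ℝ :=
  T * (1 + Real.log T + Real.log N) + (L0 + 1) * (1 + Real.log (σ + 2)) + N * σ

/-- the algebraic numbers occurring: the `b_j`, the `e^{λ_j}`, and `b_s` (all made integral) -/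
abbrev Ix (n : ℕ) := Fin (n + 1) ⊕ Fin (n + 1) ⊕ Unit

/-! ### divided differences at the nodes 0,...,0,1,...,1,... (each `τ` times) -/

/-- the `k`-th node -/
def nd (τ k : ℕ) : ℂ := ((k / τ : ℕ) : ℂ)

/-- the divided difference at the nodes `a, ..., a + ℓ` -/
def DD (f : ℂ → ℂ) (τ : ℕ) (ρ : ℝ) (a ℓ : ℕ) : ℂ :=
  (2 * Real.pi * Complex.I)⁻¹ * ∮ ζ in C(0, ρ), f ζ / ∏ k ∈ Finset.range (ℓ + 1), (ζ - nd τ (a + k))

/-- the weight -/
def WW (τ ℓ : ℕ) : ℝ := ∏ i ∈ Finset.range ℓ, ((max 1 ((i + 1) / τ) : ℕ) : ℝ)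

/-- THE BAKER-FELDMAN THEOREM for fixed logarithms -/
def BakerFeldman : Prop :=
  ∀ (n : ℕ) (lam : Fin n → ℂ), LinearIndependent ℚ lam →
    (∀ j, IsAlgebraic ℚ (Complex.exp (lam j))) → ∀ δ : ℕ, ∃ C : ℝ, 0 < C ∧
    ∀ H : ℝ, 2 ≤ H → ∀ (b0 : ℂ) (b : Fin n → ℂ), AlgB δ H b0 → (∀ j, AlgB δ H (b j)) →
      ¬ (b0 = 0 ∧ b = 0) → 1 ≤ H ^ C * ‖b0 + ∑ j, b j * lam j‖

end

end Pool.Agent.H72.BF
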