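import Pool.Agent.H72.BF.Targets
import Pool.Agent.H30.BF.EXPU
import Pool.Agent.H30.BF.NU2
import Pool.Agent.H30.BF.REP
import Pool.Agent.H36.BF.LIO
import Pool.Agent.H36.BF.ZER
import Pool.Agent.H54.BF.ROOT
import Pool.Agent.H54.BF.SIE
import Pool.Agent.H56.BF.Four
import Pool.Agent.H57.BF.BF
import Pool.Agent.H57.BF.BF1
import Pool.Agent.H57.BF.GRP
import Pool.Agent.H57.BF.LAG
import Pool.Agent.H59.BF.PAR
import Pool.Agent.H65.BF.AuxFn
import Pool.Agent.H65.BF.LQ
import Pool.Agent.H65.BF.RG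
import Pool.Agent.H65.BF.RQ
import Pool.Agent.H77.BF.CFB
import Pool.Agent.H77.BF.CMP
import Pool.Agent.H77.BF.DIF
import Pool.Agent.H78.BF.SCH
import Pool.Agent.H84.BF.STEP
import Pool.Agent.H84.BF.SUP

namespace Pool.Agent.H72.BF

/-- THE BAKER-FELDMAN THEOREM for fixed logarithms of algebraic numbers: for `ℚ`-linearly
independent `λ_j` with algebraic `e^{λ_j}` and every `δ` there is `C` such that
`1 ≤ H^C |β_0 + ∑ β_j λ_j|` for all algebraic `β`, not all zero, of degree at most `δ` and height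
at most `H`. -/
theorem bakerFeldman : BakerFeldman := by
  have hRoot := H54.BF.root
  have hAlg := H54.BF.alg
  have hSie := H54.BF.sie
  have hBin := H54.BF.bin
  have hRli := H54.BF.rli
  have hGfs := H56.BF.gfs
  have hDei := H54.BF.dei hGfs
  have hNu1 := H56.BF.nu1
  have hExf := H56.BF.exf
  have hDif := H77.BF.dif
  have hItd := H56.BF.itd hDif
  have hCfb := H77.BF.cfb hGfs hBin hRoot
  have hCmp := H77.BF.cmp hCfb hExf
  have hSup := H84.BF.sup hCfb hExf
  have hRep := H30.BF.rep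
  have hNu2 := H30.BF.nu2
  have hExpu := H30.BF.expu
  have hRg := H65.BF.rg hRep hNu2 hGfs
  have hRq := H65.BF.rq hRep hRg hAlg hNu1 hBin
  have hLio := H36.BF.lio
  have hLq := H65.BF.lq hRep hLio hRq
  have hAux := H65.BF.aux hRq hSie
  have hSch := H78.BF.sch
  have hStep := H84.BF.step hSup hCmp hItd hSch hLq hRoot hDif
  have hZer := H36.BF.zer H57.BF.grp H57.BF.sep H57.BF.lag hDei hRli hExpu
  have hPar := H59.BF.PAR.par
  exact H57.BF.bf (H57.BF.bf1 hAux hStep hZer hPar hRoot) hRoot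

end Pool.Agent.H72.BF
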