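import Pool.Agent.H72.BF.Targets2

open Polynomial Finset Filter

namespace Pool.Agent.H72.BF

/-! Targets of the board bf_modules, part 4: almost all tuples of logarithms of integers. -/

section defs

variable (K : Type) {F : Type} [Field K] [Field F] [Algebra K F] {r : ℕ}

/-- a nonzero polynomial relation of degree at most `D` between `t` and `y` over `K` -/
def RelN (t : Fin r → F) (D : ℕ) (y : F) : Prop :=
  ∃ Q : MvPolynomial (Fin (r + 1)) K, Q ≠ 0 ∧ Q.totalDegree ≤ D ∧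
    MvPolynomial.aeval (Fin.snoc t y : Fin (r + 1) → F) Q = 0

/-- the field `K(t)` -/
abbrev EE' (t : Fin r → F) : IntermediateField K F := IntermediateField.adjoin K (Set.range t)

/-- filtered integrality: a monic equation whose `i`-th coefficient has degree at most `E * i` -/
def FInt (t : Fin r → F) (E : ℕ) (z : F) : Prop :=
  ∃ (e : ℕ) (c : ℕ → MvPolynomial (Fin r) K), c 0 = 1 ∧ (∀ i, (c i).totalDegree ≤ E * i) ∧
    ∑ i ∈ range (e + 1), MvPolynomial.aeval t (c i) * z ^ (e - i) = 0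

end defs

/-- Littlewood-Offord type lemma -/
def T_LO : Prop := ∀ s : ℕ, ∃ h : ℕ, ∀ (A : Type) [AddCommGroup A] [Module ℚ A] (k : ℕ)
  (δ : Fin s → Fin k → A), (∀ p, h ≤ Set.ncard {i | δ p i ≠ 0}) →
  ∃ I : Finset (Fin k), ∀ p, ∑ i ∈ I, δ p i ≠ 0

/-- a stable scale in a finite group with a left invariant distance -/
def T_GSC : Prop := ∀ (D h0 : ℕ) (G : Type) [Group G] [Finite G] (dist : G → G → ℕ),
  (∀ x, dist x x = 0) → (∀ x y, dist x y = dist y x) →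
  (∀ x y z, dist x z ≤ dist x y + dist y z) → (∀ g x y, dist (g * x) (g * y) = dist x y) →
  1 ≤ D → (∀ X : Finset G, (∀ x ∈ X, ∀ y ∈ X, x ≠ y → h0 < dist x y) → X.card ≤ D) →
  ∃ G0 : Subgroup G, G0.index ≤ D ∧ ∀ σ ∈ G0, dist 1 σ ≤ 4 ^ D * h0

/-- field part of the cube lemma -/
def T_FLD : Prop := ∀ D : ℕ, ∃ s : ℕ, ∀ (L F : Type) [Field L] [CharZero L] [Field F]
  [Algebra L F] (k : ℕ) (w : Fin k → F),
  (∀ I : Finset (Fin k), ∃ g : L[X], g ≠ 0 ∧ g.natDegree ≤ D ∧ aeval (∑ i ∈ I, w i) g = 0) →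
  ∃ (J : Finset (Fin k)) (E : IntermediateField L F), k ≤ J.card + s ∧ FiniteDimensional L E ∧
    Module.finrank L E ≤ D ∧ ∀ i ∈ J, w i ∈ E

/-- filtered integrality: closure properties -/
def T_FIA : Prop := ∀ (K F : Type) [Field K] [Field F] [Algebra K F] (r : ℕ) (t : Fin r → F),
  (∀ (p : MvPolynomial (Fin r) K) (E : ℕ), p.totalDegree ≤ E → FInt K t E (MvPolynomial.aeval t p)) ∧
  (∀ (E E' : ℕ) (z : F), E ≤ E' → FInt K t E z → FInt K t E' z) ∧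
  (∀ (E : ℕ) (z z' : F), FInt K t E z → FInt K t E z' → FInt K t E (z + z')) ∧
  (∀ (E E' : ℕ) (z z' : F), FInt K t E z → FInt K t E' z' → FInt K t (E + E') (z * z'))

/-- filtered integral elements: the minimal polynomial; elements of `K(t)` -/
def T_FIE : Prop := ∀ (K F : Type) [Field K] [CharZero K] [Field F] [Algebra K F] (r : ℕ)
  (t : Fin r → F), AlgebraicIndependent K t →
  (∀ (E : ℕ) (z : F), z ∈ EE' K t → FInt K t E z →
    ∃ p : MvPolynomial (Fin r) K, p.totalDegree ≤ E ∧ z = MvPolynomial.aeval t p) ∧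
  (∀ (E : ℕ) (z : F), FInt K t E z → ∃ c : ℕ → MvPolynomial (Fin r) K, c 0 = 1 ∧
    (∀ i, (c i).totalDegree ≤ E * i) ∧
    (∀ i ≤ (minpoly (EE' K t) z).natDegree,
      (((minpoly (EE' K t) z).coeff ((minpoly (EE' K t) z).natDegree - i) : EE' K t) : F) =
        MvPolynomial.aeval t (c i)))

/-- a relation gives filtered integrality of a multiple, and algebraicity of bounded degree -/
def T_RFI : Prop := ∀ (K F : Type) [Field K] [Field F] [Algebra K F] (r D : ℕ) (t : Fin r → F)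
  (y : F), AlgebraicIndependent K t → RelN K t D y →
  (∃ p : MvPolynomial (Fin r) K, p ≠ 0 ∧ p.totalDegree ≤ D ∧
    FInt K t D (MvPolynomial.aeval t p * y)) ∧
  (∃ g : (EE' K t)[X], g ≠ 0 ∧ g.natDegree ≤ D ∧ aeval y g = 0)

/-- differences of elements in a relation -/
def T_CXR : Prop := ∀ (K F : Type) [Field K] [CharZero K] [Field F] [Algebra K F] (r d : ℕ)
  (t : Fin r → F) (y y' : F), AlgebraicIndependent K t → RelN K t d y → RelN K t d y' →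
  RelN K t ((2 * d + 1) * d ^ 2) (y - y')

/-- common denominator -/
def T_POLE : Prop := ∀ (K F : Type) [Field K] [CharZero K] [Field F] [Algebra K F] (r D k : ℕ)
  (t : Fin r → F) (w : Fin k → F), AlgebraicIndependent K t →
  (∀ I : Finset (Fin k), RelN K t D (∑ i ∈ I, w i)) →
  ∃ q : MvPolynomial (Fin r) K, q ≠ 0 ∧ q.totalDegree ≤ 2 * D * D ∧
    ∀ i, FInt K t (2 * D * D + D) (MvPolynomial.aeval t q * w i)

/-- filtered integral elements in a field of bounded degree: bounded dimension -/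
def T_ZD : Prop := ∀ r N B : ℕ, ∃ β : ℕ, ∀ (K F : Type) [Field K] [CharZero K] [Field F]
  [Algebra K F] (t : Fin r → F), AlgebraicIndependent K t →
  ∀ E0 : IntermediateField (EE' K t) F, FiniteDimensional (EE' K t) E0 →
  Module.finrank (EE' K t) E0 ≤ N → ∀ (m : ℕ) (z : Fin m → F), LinearIndependent K z →
  (∀ i, z i ∈ E0) → (∀ i, FInt K t B (z i)) → m ≤ β

/-- THE CUBE LEMMA over algebraically independent elements -/
def T_GCL : Prop := ∀ r d : ℕ, ∃ κ : ℕ, ∀ (K F : Type) [Field K] [CharZero K] [Field F]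
  [Algebra K F] (t : Fin r → F), AlgebraicIndependent K t → ∀ (y0 : F) (k : ℕ) (w : Fin k → F),
  LinearIndependent K w → (∀ I : Finset (Fin k), RelN K t d (y0 + ∑ i ∈ I, w i)) → k ≤ κ

/-- the cube lemma over elements without relations of small degree (compactness) -/
def T_GCLC : Prop := ∀ r d : ℕ, ∃ κ D' : ℕ, ∀ (K F : Type) [Field K] [CharZero K] [Field F]
  [Algebra K F] (t : Fin r → F), (∀ P : MvPolynomial (Fin r) K, P.totalDegree ≤ D' →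
    MvPolynomial.aeval t P = 0 → P = 0) → ∀ (y0 : F) (k : ℕ) (w : Fin k → F),
  LinearIndependent K w → (∀ I : Finset (Fin k), RelN K t d (y0 + ∑ i ∈ I, w i)) → k ≤ κ

/-- one step: two primes -/
def T_TK : Prop := ∀ (δ : ℝ) (E : Finset ℕ), 0 < δ → ∃ (Pr : Finset ℕ) (δ' : ℝ) (x0 : ℕ),
  0 < δ' ∧ (∀ p ∈ Pr, p.Prime ∧ p ∉ E) ∧ ∀ x : ℕ, x0 ≤ x → ∀ S : Finset ℕ,
  S ⊆ Finset.Icc 1 x → δ * x ≤ S.card → ∃ p ∈ Pr, ∃ q ∈ Pr, p ≠ q ∧
  δ' * x ≤ (((Finset.Icc 1 x).filter (fun m => p * m ∈ S ∧ q * m ∈ S)).card : ℝ)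

/-- multiplicative cubes in dense sets -/
def T_CUBE : Prop := ∀ (k : ℕ) (δ : ℝ) (E : Finset ℕ), 0 < δ → ∃ x0 : ℕ, ∀ x : ℕ, x0 ≤ x →
  ∀ S : Finset ℕ, S ⊆ Finset.Icc 1 x → δ * x ≤ S.card →
  ∃ (p : Fin k → Fin 2 → ℕ) (m : ℕ), 1 ≤ m ∧ (∀ i e, (p i e).Prime ∧ p i e ∉ E) ∧
  Function.Injective (fun ie : Fin k × Fin 2 => p ie.1 ie.2) ∧
  ∀ ε : Fin k → Fin 2, m * ∏ i, p i (ε i) ∈ S

/-- every subset of density at least `ε` contains a `k`-dimensional cube with independent sides -/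
def Cubical (k : ℕ) (ε : ℝ) (X : Finset ℂ) : Prop :=
  ∀ S : Finset ℂ, S ⊆ X → ε * X.card ≤ S.card → ∃ (y : ℂ) (w : Fin k → ℂ),
    LinearIndependent ℚ w ∧ ∀ I : Finset (Fin k), y + ∑ i ∈ I, w i ∈ S

/-- logarithms of integers -/
def T_CUBI : Prop := ∀ (k : ℕ) (ε : ℝ), 0 < ε → ∃ x0 : ℕ, ∀ x : ℕ, x0 ≤ x →
  Cubical k ε ((Finset.Icc 1 x).image (fun m : ℕ => (Real.log m : ℂ)))

/-- boxes -/
def T_CUBB : Prop := ∀ (k : ℕ) (ε : ℝ), 0 < ε → ∃ M0 : ℕ, ∀ M : ℕ, M0 ≤ M →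
  ∀ mu : Fin M → ℂ, LinearIndependent ℚ mu → ∀ V : Fin M → Finset ℤ, (∀ i, 2 ≤ (V i).card) →
  Cubical k ε ((Fintype.piFinset V).image (fun v => ∑ j, (v j : ℂ) * mu j))

/-- the bad tuples in the residue field -/
def badF {H : ℕ → ℝ} (P : Pkg H) (lam0 : ℂ) (n d : ℕ) (a : Fin n → ℂ) : Prop :=
  ∃ Q : MvPolynomial (Fin (n + 1)) P.kb, Q ≠ 0 ∧ Q.totalDegree ≤ d ∧
    MvPolynomial.aeval (Fin.cons (P.cst lam0) (fun i => P.cst (a i)) : Fin (n + 1) → P.F) Q = 0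

/-- counting in the residue field -/
def T_CNTF : Prop := ∀ (n d : ℕ) (δ : ℝ), 0 < δ → ∃ (k : ℕ) (ε : ℝ), 0 < ε ∧ ∀ X : Finset ℂ,
  (∀ z ∈ X, IsAlgebraic ℚ (Complex.exp z)) → Cubical k ε X → ∀ lam0 : ℂ, lam0 ≠ 0 →
  IsAlgebraic ℚ (Complex.exp lam0) → ∀ (H : ℕ → ℝ) (P : Pkg H),
  (Set.ncard {a : Fin n → ℂ | (∀ i, a i ∈ X) ∧ badF P lam0 n d a} : ℝ) ≤ δ * (X.card : ℝ) ^ n

/-- the tuple `(lam0, a)` violates the inequality with exponent `C` at height `H` -/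
def badZ (lam0 : ℂ) (n d : ℕ) (C H : ℝ) (a : Fin n → ℂ) : Prop :=
  ∃ P : MvPolynomial (Fin (n + 1)) ℤ, P ≠ 0 ∧ P.totalDegree ≤ d ∧
      (∀ m : Fin (n + 1) →₀ ℕ, |((P.coeff m : ℤ) : ℝ)| ≤ H) ∧
      H ^ C * ‖MvPolynomial.aeval (Fin.cons lam0 a : Fin (n + 1) → ℂ) P‖ < 1

/-- THEOREM: almost all tuples from a cubical set of logarithms -/
def AlmostAll : Prop := ∀ (n d : ℕ) (δ : ℝ), 0 < δ → ∃ (k : ℕ) (ε : ℝ), 0 < ε ∧ ∀ X : Finset ℂ,
  (∀ z ∈ X, IsAlgebraic ℚ (Complex.exp z)) → Cubical k ε X → ∀ lam0 : ℂ, lam0 ≠ 0 →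
  IsAlgebraic ℚ (Complex.exp lam0) → ∃ C : ℝ, 0 < C ∧ ∀ H : ℝ, 2 ≤ H →
  (Set.ncard {a : Fin n → ℂ | (∀ i, a i ∈ X) ∧ badZ lam0 n d C H a} : ℝ) ≤ δ * (X.card : ℝ) ^ n

def T_AAK : Prop := AlmostAll

/-- THEOREM: for every degree the inequality holds for almost all tuples of logarithms of
positive integers, together with an arbitrary fixed logarithm of an algebraic number -/
def AlmostAllIntegers : Prop := ∀ (n d : ℕ) (δ : ℝ), 0 < δ → ∃ x0 : ℕ, ∀ x : ℕ, x0 ≤ x →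
  ∀ lam0 : ℂ, lam0 ≠ 0 → IsAlgebraic ℚ (Complex.exp lam0) →
  ∃ C : ℝ, 0 < C ∧ ∀ H : ℝ, 2 ≤ H →
  (Set.ncard {a : Fin n → ℕ | (∀ i, 1 ≤ a i ∧ a i ≤ x) ∧
    badZ lam0 n d C H (fun i => (Real.log (a i) : ℂ))} : ℝ) ≤ δ * (x : ℝ) ^ n

def T_AAI : Prop := AlmostAll → T_CUBI → AlmostAllIntegers

/-- THEOREM: the same for combinations of many independent logarithms -/
def AlmostAllBoxes : Prop := ∀ (n d : ℕ) (δ : ℝ), 0 < δ → ∃ M0 : ℕ, ∀ M : ℕ, M0 ≤ M →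
  ∀ (lam0 : ℂ) (mu : Fin M → ℂ), lam0 ≠ 0 → IsAlgebraic ℚ (Complex.exp lam0) →
  LinearIndependent ℚ mu → (∀ j, IsAlgebraic ℚ (Complex.exp (mu j))) →
  ∀ V : Fin M → Finset ℤ, (∀ i, 2 ≤ (V i).card) → ∃ C : ℝ, 0 < C ∧ ∀ H : ℝ, 2 ≤ H →
  (Set.ncard {v : Fin n → Fin M → ℤ | (∀ i j, v i j ∈ V j) ∧
    badZ lam0 n d C H (fun i => ∑ j, (v i j : ℂ) * mu j)} : ℝ) ≤
      δ * (∏ j, ((V j).card : ℝ)) ^ n

def T_AAB : Prop := AlmostAll → T_CUBB → AlmostAllBoxes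

end Pool.Agent.H72.BF
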