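import Pool.Agent.H72.BF.Assemble4

open Polynomial Finset Filter

namespace Pool.Agent.H72.BF

/-! The relative theorem for tuples. -/

section last

variable (R : Type) [CommRing R] (N : ℕ)

/-- decomposition with respect to the last variable -/
noncomputable def lastEq : MvPolynomial (Fin (N + 1)) R ≃ₐ[R] (MvPolynomial (Fin N) R)[X] :=
  (MvPolynomial.renameEquiv R (finRotate (N + 1))).trans (MvPolynomial.finSuccEquiv R N)

theorem lastEq_last : lastEq R N (MvPolynomial.X (Fin.last N)) = X := by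
  simp [lastEq, MvPolynomial.finSuccEquiv_X_zero]

theorem lastEq_castSucc (i : Fin N) :
    lastEq R N (MvPolynomial.X i.castSucc) = C (MvPolynomial.X i) := by
  have : finRotate (N + 1) i.castSucc = i.succ := by
    rw [finRotate_succ_apply, Fin.coeSucc_eq_succ]
  simp [lastEq, this, MvPolynomial.finSuccEquiv_X_succ]

theorem lastEq_C (a : R) : lastEq R N (MvPolynomial.C a) = C (MvPolynomial.C a) := by
  rw [← MvPolynomial.algebraMap_eq, AlgEquiv.commutes, Polynomial.algebraMap_apply,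
    MvPolynomial.algebraMap_eq]

theorem totalDegree_lastEq (P : MvPolynomial (Fin (N + 1)) R) (j : ℕ) :
    ((lastEq R N P).coeff j).totalDegree ≤ P.totalDegree := by
  by_cases hj : (lastEq R N P).coeff j = 0
  · rw [hj, MvPolynomial.totalDegree_zero]; exact Nat.zero_le _
  · have := MvPolynomial.totalDegree_coeff_finSuccEquiv_add_le
      (MvPolynomial.rename (finRotate (N + 1)) P) j (by exact hj)
    have h3 := MvPolynomial.totalDegree_rename_le (finRotate (N + 1)) P
    have h4 : ((lastEq R N P).coeff j).totalDegree + j ≤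
      (MvPolynomial.rename (finRotate (N + 1)) P).totalDegree := this
    omega

theorem coeff_lastEq (P : MvPolynomial (Fin (N + 1)) R) (j : ℕ) (m : Fin N →₀ ℕ) :
    ∃ m', ((lastEq R N P).coeff j).coeff m = P.coeff m' := by
  refine ⟨(m.cons j).mapDomain (finRotate (N + 1)).symm, ?_⟩
  have h1 : ((lastEq R N P).coeff j).coeff m =
    (MvPolynomial.rename (finRotate (N + 1)) P).coeff (m.cons j) :=
    MvPolynomial.finSuccEquiv_coeff_coeff _ _ _
  rw [h1, ← MvPolynomial.coeff_rename_mapDomain (finRotate (N + 1)) (finRotate (N + 1)).injective P,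
    ← Finsupp.mapDomain_comp]
  simp

theorem coeff_lastEq' (P : MvPolynomial (Fin (N + 1)) R) (m' : Fin (N + 1) →₀ ℕ) :
    ∃ (j : ℕ) (m : Fin N →₀ ℕ), ((lastEq R N P).coeff j).coeff m = P.coeff m' := by
  set m := m'.mapDomain (finRotate (N + 1)) with hm
  refine ⟨m 0, m.tail, ?_⟩
  have h1 : ((lastEq R N P).coeff (m 0)).coeff m.tail =
    (MvPolynomial.rename (finRotate (N + 1)) P).coeff (m.tail.cons (m 0)) :=
    MvPolynomial.finSuccEquiv_coeff_coeff _ _ _
  rw [h1, Finsupp.cons_tail, hm,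
    MvPolynomial.coeff_rename_mapDomain (finRotate (N + 1)) (finRotate (N + 1)).injective P]

end last

/-- evaluation in the first variables -/
theorem lastEq_map {S : Type} [CommRing S] (N : ℕ) (x : Fin N → S)
    (P : MvPolynomial (Fin (N + 1)) ℤ) :
    MvPolynomial.aeval (Fin.snoc (fun i => C (x i)) X : Fin (N + 1) → S[X]) P =
      (lastEq ℤ N P).map (MvPolynomial.aeval x : MvPolynomial (Fin N) ℤ →ₐ[ℤ] S).toRingHom := by
  induction P using MvPolynomial.induction_on with
  | C a => simp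
  | add p q hp hq => rw [map_add, map_add, Polynomial.map_add, hp, hq]
  | mul_X p i hp =>
    rw [map_mul, map_mul, Polynomial.map_mul, hp]
    congr 1
    refine Fin.lastCases ?_ (fun i => ?_) i
    · simp [lastEq_last]
    · simp [lastEq_castSucc]

theorem lastEq_aeval_aux {N n : ℕ} (g : Fin (N + 1) → MvPolynomial (Fin (n + 1)) ℂ)
    (g' : Fin N → MvPolynomial (Fin n) ℂ) (h1 : lastEq ℂ n (g (Fin.last N)) = X)
    (h2 : ∀ i : Fin N, lastEq ℂ n (g i.castSucc) = C (g' i)) (P : MvPolynomial (Fin (N + 1)) ℤ) :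
    lastEq ℂ n (MvPolynomial.aeval g P) =
      (lastEq ℤ N P).map (MvPolynomial.aeval g' :
            MvPolynomial (Fin N) ℤ →ₐ[ℤ] MvPolynomial (Fin n) ℂ).toRingHom := by
  induction P using MvPolynomial.induction_on with
  | C a => simp
  | add p q hp hq => rw [map_add, map_add, map_add, Polynomial.map_add, hp, hq]
  | mul_X p i hp =>
    have key : lastEq ℂ n (g i) = (lastEq ℤ N (MvPolynomial.X i)).map
        (MvPolynomial.aeval g' :
            MvPolynomial (Fin N) ℤ →ₐ[ℤ] MvPolynomial (Fin n) ℂ).toRingHom := by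
      refine Fin.lastCases ?_ (fun i => ?_) i
      · rw [lastEq_last, Polynomial.map_X, h1]
      · rw [lastEq_castSucc, Polynomial.map_C, h2]
        simp
    rw [map_mul, map_mul, map_mul, Polynomial.map_mul, hp, MvPolynomial.aeval_X, key]

/-- decomposition after evaluation of the first block of variables -/
theorem lastEq_aeval {r n : ℕ} (ξ : Fin r → ℂ) (P : MvPolynomial (Fin (r + n + 1)) ℤ) :
    lastEq ℂ n (MvPolynomial.aeval (Fin.append (fun i => MvPolynomial.C (ξ i)) MvPolynomial.X :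
          Fin (r + (n + 1)) → MvPolynomial (Fin (n + 1)) ℂ) P) =
      (lastEq ℤ (r + n) P).map (MvPolynomial.aeval
        (Fin.append (fun i => MvPolynomial.C (ξ i)) MvPolynomial.X :
          Fin (r + n) → MvPolynomial (Fin n) ℂ) :
            MvPolynomial (Fin (r + n)) ℤ →ₐ[ℤ] MvPolynomial (Fin n) ℂ).toRingHom := by
  refine lastEq_aeval_aux _ _ ?_ ?_ P
  · have : Fin.last (r + n) = Fin.natAdd r (Fin.last n) := by ext; simp
    rw [this, Fin.append_right, lastEq_last]
  · intro i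
    refine Fin.addCases (fun i => ?_) (fun i => ?_) i
    · have : (Fin.castAdd n i).castSucc = Fin.castAdd (n + 1) i := by ext; simp
      rw [this, Fin.append_left, lastEq_C, Fin.append_left]
    · have : (Fin.natAdd r i).castSucc = Fin.natAdd r i.castSucc := by ext; simp
      rw [this, Fin.append_right, lastEq_castSucc, Fin.append_right]

/-- `a` violates the inequality relative to `ξ`: some `P` is very small at `(ξ, a)` although
`P(ξ, Y)` has a coefficient which is not small -/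
def badRN {r n : ℕ} (ξ : Fin r → ℂ) (d : ℕ) (A C H : ℝ) (a : Fin n → ℂ) : Prop :=
  ∃ P : MvPolynomial (Fin (r + n)) ℤ, P.totalDegree ≤ d ∧
      (∀ m : Fin (r + n) →₀ ℕ, |((P.coeff m : ℤ) : ℝ)| ≤ H) ∧
      H ^ C * ‖MvPolynomial.aeval (Fin.append ξ a) P‖ < 1 ∧
      ∃ m : Fin n →₀ ℕ, 1 ≤ H ^ A *
        ‖(MvPolynomial.aeval (Fin.append (fun i => MvPolynomial.C (ξ i)) MvPolynomial.X :
          Fin (r + n) → MvPolynomial (Fin n) ℂ) P).coeff m‖

/-- no bad tuple of length zero -/
theorem not_badRN_zero {r : ℕ} (ξ : Fin r → ℂ) (d : ℕ) (A C H : ℝ) (hAC : A ≤ C) (hH : 2 ≤ H)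
    (a : Fin 0 → ℂ) : ¬ badRN ξ d A C H a := by
  rintro ⟨P, -, -, h1, m, h2⟩
  have key : MvPolynomial.aeval (Fin.append (fun i => MvPolynomial.C (ξ i)) MvPolynomial.X :
          Fin (r + 0) → MvPolynomial (Fin 0) ℂ) P =
      MvPolynomial.C (MvPolynomial.aeval (Fin.append ξ a) P) := by
    have : (Fin.append (fun i => MvPolynomial.C (ξ i)) MvPolynomial.X :
          Fin (r + 0) → MvPolynomial (Fin 0) ℂ) =
        algebraMap ℂ (MvPolynomial (Fin 0) ℂ) ∘ Fin.append ξ a := by
      funext i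
      refine Fin.addCases (fun i => ?_) (fun i => i.elim0) i
      rw [Function.comp_apply, Fin.append_left, Fin.append_left]
      rfl
    rw [this, MvPolynomial.aeval_algebraMap_apply]
    rfl
  rw [key, MvPolynomial.coeff_C, Subsingleton.elim (0 : Fin 0 →₀ ℕ) m, if_pos rfl] at h2
  have h3 : H ^ A ≤ H ^ C := Real.rpow_le_rpow_of_exponent_le (by linarith) hAC
  have h4 := mul_le_mul_of_nonneg_right h3 (norm_nonneg (MvPolynomial.aeval (Fin.append ξ a) P))
  linarith

/-- one step -/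
theorem badRN_succ {r n : ℕ} (ξ : Fin r → ℂ) (d : ℕ) (A C C1 H : ℝ) (a : Fin (n + 1) → ℂ)
    (h : badRN ξ d A C H a) (h' : ¬ badRN ξ d A C1 H (Fin.init a : Fin n → ℂ)) :
    badR (Fin.append ξ (Fin.init a : Fin n → ℂ)) d C1 C H (a (Fin.last n)) := by
  obtain ⟨P, hd, hH, hs, m, hm⟩ := h
  refine ⟨P, hd, hH, ?_, ?_⟩
  · have : (Fin.snoc (Fin.append ξ (Fin.init a : Fin n → ℂ)) (a (Fin.last n)) :
        Fin (r + n + 1) → ℂ) = Fin.append ξ a := by
      rw [← Fin.append_snoc, Fin.snoc_init_self]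
    rw [this]
    exact hs
  · obtain ⟨j, m', hjm⟩ := coeff_lastEq' ℂ n (MvPolynomial.aeval
      (Fin.append (fun i => MvPolynomial.C (ξ i)) MvPolynomial.X :
          Fin (r + (n + 1)) → MvPolynomial (Fin (n + 1)) ℂ) P) m
    rw [← hjm, lastEq_aeval, Polynomial.coeff_map] at hm
    refine ⟨j, ?_⟩
    rw [lastEq_map, Polynomial.coeff_map]
    by_contra hlt
    push Not at hlt
    apply h'
    refine ⟨(lastEq ℤ (r + n) P).coeff j, (totalDegree_lastEq ℤ (r + n) P j).trans hd, ?_, hlt,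
      m', hm⟩
    intro m
    obtain ⟨m', hm'⟩ := coeff_lastEq ℤ (r + n) P j m
    rw [hm']
    exact hH m'

/-- change of scale -/
theorem badR_scale {r : ℕ} (ξ : Fin r → ℂ) (d : ℕ) (A C H c : ℝ) (z : ℂ) (hH : 2 ≤ H)
    (hc : 1 ≤ c) (h : badR ξ d A (c * C) H z) : badR ξ d (A / c) C (H ^ c) z := by
  obtain ⟨P, hd, hH', hs, j, hj⟩ := h
  have hH0 : 0 ≤ H := by linarith
  refine ⟨P, hd, fun m => (hH' m).trans ?_, ?_, j, ?_⟩
  · calc H = H ^ (1 : ℝ) := (Real.rpow_one H).symm
      _ ≤ H ^ c := Real.rpow_le_rpow_of_exponent_le (by linarith) hc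
  · rw [← Real.rpow_mul hH0]
    exact hs
  · rw [← Real.rpow_mul hH0, mul_div_cancel₀ _ (by linarith : c ≠ 0)]
    exact hj

open Classical in
theorem almostAllRelN (r n : ℕ) : ∀ (d : ℕ) (δ : ℝ), 0 < δ → ∃ (k : ℕ) (ε : ℝ), 0 < ε ∧
    ∀ X : Finset ℂ, (∀ z ∈ X, IsAlgebraic ℚ (Complex.exp z)) → Cubical k ε X → ∀ A : ℝ,
    ∃ C : ℝ, 0 < C ∧ ∀ H : ℝ, 2 ≤ H → ∀ ξ : Fin r → ℂ, (∀ i, ‖ξ i‖ ≤ H) →
    (Set.ncard {a : Fin n → ℂ | (∀ i, a i ∈ X) ∧ badRN ξ d A C H a} : ℝ) ≤
      δ * (X.card : ℝ) ^ n := by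
  induction n with
  | zero =>
    intro d δ hδ
    refine ⟨0, 1, one_pos, fun X hX _ A => ⟨max A 1, by positivity, fun H hH ξ _ => ?_⟩⟩
    have : {a : Fin 0 → ℂ | (∀ i, a i ∈ X) ∧ badRN ξ d A (max A 1) H a} = ∅ := by
      ext a
      simp only [Set.mem_ofPred_eq, Set.mem_empty_iff_false, iff_false, not_and]
      intro _
      exact not_badRN_zero ξ d A _ H (le_max_left _ _) hH a
    rw [this]
    simp only [Set.ncard_empty, Nat.cast_zero, pow_zero, mul_one]
    exact hδ.le
  | succ n ih =>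
    intro d δ hδ
    obtain ⟨k2, ε2, hε2, h2⟩ := almostAllRel (r + n) d (δ / 2) (by positivity)
    obtain ⟨k1, ε1, hε1, h1⟩ := ih d (δ / 2) (by positivity)
    refine ⟨max k1 k2, min ε1 ε2, lt_min hε1 hε2, ?_⟩
    intro X hX hcub A
    obtain ⟨C1, hC1, hG1⟩ := h1 X hX
      (H17.BF.cubical_mono hcub (le_max_left _ _) (min_le_left _ _)) A
    -- bound for the elements of X
    obtain ⟨B, hB⟩ : ∃ B : ℝ, ∀ z ∈ X, ‖z‖ ≤ B :=
      ⟨∑ z ∈ X, ‖z‖, fun z hz => Finset.single_le_sum (f := fun z : ℂ => ‖z‖)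
        (fun _ _ => norm_nonneg _) hz⟩
    obtain ⟨c0, hc0⟩ := pow_unbounded_of_one_lt B (by norm_num : (1 : ℝ) < 2)
    set c : ℝ := (c0 : ℝ) + 1 with hc
    have hc1 : 1 ≤ c := by
      have : (0 : ℝ) ≤ c0 := Nat.cast_nonneg _
      linarith
    obtain ⟨C2, hC2, hG2⟩ := h2 X hX
      (H17.BF.cubical_mono hcub (le_max_right _ _) (min_le_right _ _)) (C1 / c)
    refine ⟨c * C2, by positivity, fun H hH ξ hξ => ?_⟩
    have hG1 := hG1 H hH ξ hξ
    have hHc : H ≤ H ^ c := by
      calc H = H ^ (1 : ℝ) := (Real.rpow_one H).symm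
        _ ≤ H ^ c := Real.rpow_le_rpow_of_exponent_le (by linarith) hc1
    have hBc : B ≤ H ^ c := by
      have h3 : (2 : ℝ) ^ c0 ≤ H ^ c0 := pow_le_pow_left₀ (by norm_num) hH c0
      have h4 : H ^ c0 ≤ H ^ c := by
        rw [← Real.rpow_natCast]
        exact Real.rpow_le_rpow_of_exponent_le (by linarith) (by rw [hc]; linarith)
      linarith
    have hG3 : ∀ a' : Fin n → ℂ, (∀ i, a' i ∈ X) →
        ((X.filter (fun z => badR (Fin.append ξ a') d C1 (c * C2) H z)).card : ℝ) ≤
          δ / 2 * X.card := by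
      intro a' ha'
      have h3 := hG2 (H ^ c) (by linarith) (Fin.append ξ a') (by
        intro i
        refine Fin.addCases (fun i => ?_) (fun i => ?_) i
        · rw [Fin.append_left]; exact (hξ i).trans hHc
        · rw [Fin.append_right]; exact (hB _ (ha' i)).trans hBc)
      refine le_trans ?_ h3
      rw [← Set.ncard_coe_finset]
      have h5 : (↑(X.filter (fun z => badR (Fin.append ξ a') d C1 (c * C2) H z)) : Set ℂ) ⊆
          {z : ℂ | z ∈ X ∧ badR (Fin.append ξ a') d (C1 / c) C2 (H ^ c) z} := by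
        intro z hz
        simp only [Finset.coe_filter, Set.mem_ofPred_eq] at hz ⊢
        exact ⟨hz.1, badR_scale _ d C1 C2 H c z hH hc1 hz.2⟩
      have h6 : {z : ℂ | z ∈ X ∧ badR (Fin.append ξ a') d (C1 / c) C2 (H ^ c) z}.Finite :=
        (Finset.finite_toSet X).subset fun z hz => hz.1
      exact_mod_cast Set.ncard_le_ncard h5 h6
    set XX : Finset (Fin n → ℂ) := Fintype.piFinset (fun _ => X) with hXX
    set Bf : Finset (Fin (n + 1) → ℂ) :=
      (Fintype.piFinset (fun _ => X)).filter (fun a => badRN ξ d A (c * C2) H a) with hBf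
    set Gf : Finset (Fin n → ℂ) := XX.filter (fun a => badRN ξ d A C1 H a) with hGf
    have e1 : {a : Fin (n + 1) → ℂ | (∀ i, a i ∈ X) ∧ badRN ξ d A (c * C2) H a} =
        (Bf : Set _) := by
      ext a
      simp [hBf, Fintype.mem_piFinset]
    have e2 : {a : Fin n → ℂ | (∀ i, a i ∈ X) ∧ badRN ξ d A C1 H a} = (Gf : Set _) := by
      ext a
      simp [hGf, hXX, Fintype.mem_piFinset]
    rw [e1, Set.ncard_coe_finset]
    rw [e2, Set.ncard_coe_finset] at hG1
    have hmaps : ∀ a ∈ Bf, Fin.init a ∈ XX := by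
      intro a haB
      rw [hBf, Finset.mem_filter, Fintype.mem_piFinset] at haB
      rw [hXX, Fintype.mem_piFinset]
      intro i
      exact haB.1 _
    have hcard : Bf.card = ∑ a' ∈ XX, (Bf.filter (fun a => Fin.init a = a')).card :=
      Finset.card_eq_sum_card_fiberwise (f := fun a : Fin (n + 1) → ℂ => (Fin.init a : Fin n → ℂ))
        (s := Bf) (t := XX) hmaps
    have hfib0 : ∀ a' : Fin n → ℂ, (Bf.filter (fun a => Fin.init a = a')).card ≤ X.card := by
      intro a'
      refine Finset.card_le_card_of_injOn (fun a => a (Fin.last n)) ?_ ?_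
      · intro a haf
        simp only [hBf, Finset.coe_filter, Finset.mem_filter, Set.mem_ofPred_eq,
          Fintype.mem_piFinset] at haf ⊢
        exact haf.1.1 _
      · intro a haf b hbf hab
        simp only [Finset.coe_filter, Set.mem_ofPred_eq] at haf hbf
        rw [← Fin.snoc_init_self a, ← Fin.snoc_init_self b, haf.2, hbf.2]
        simp only at hab
        rw [hab]
    have hfib : ∀ a' : Fin n → ℂ, ¬ badRN ξ d A C1 H a' →
        (Bf.filter (fun a => Fin.init a = a')).card ≤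
        (X.filter (fun z => badR (Fin.append ξ a') d C1 (c * C2) H z)).card := by
      intro a' hnb
      refine Finset.card_le_card_of_injOn (fun a => a (Fin.last n)) ?_ ?_
      · intro a haf
        simp only [hBf, Finset.coe_filter, Finset.mem_filter, Set.mem_ofPred_eq,
          Fintype.mem_piFinset] at haf ⊢
        refine ⟨haf.1.1 _, ?_⟩
        have h3 := badRN_succ ξ d A (c * C2) C1 H a haf.1.2 (by rw [haf.2]; exact hnb)
        rw [haf.2] at h3
        exact h3
      · intro a haf b hbf hab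
        simp only [Finset.coe_filter, Set.mem_ofPred_eq] at haf hbf
        rw [← Fin.snoc_init_self a, ← Fin.snoc_init_self b, haf.2, hbf.2]
        simp only at hab
        rw [hab]
    have hXn : (XX.card : ℝ) = (X.card : ℝ) ^ n := by
      rw [hXX, Fintype.card_piFinset_const]
      push_cast
      rfl
    have hbound : ∀ a' ∈ XX, ((Bf.filter (fun a => Fin.init a = a')).card : ℝ) ≤
        (if a' ∈ Gf then (X.card : ℝ) else 0) + δ / 2 * X.card := by
      intro a' haX
      by_cases hg : a' ∈ Gf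
      · rw [if_pos hg]
        have : ((Bf.filter (fun a => Fin.init a = a')).card : ℝ) ≤ X.card := by
          exact_mod_cast hfib0 a'
        have h3 : 0 ≤ δ / 2 * (X.card : ℝ) := by positivity
        linarith
      · rw [if_neg hg, zero_add]
        have hnb : ¬ badRN ξ d A C1 H a' := by
          intro hb
          exact hg (Finset.mem_filter.2 ⟨haX, hb⟩)
        have h3 := hG3 a' (by
          rw [hXX, Fintype.mem_piFinset] at haX
          exact haX)
        have h4 : ((Bf.filter (fun a => Fin.init a = a')).card : ℝ) ≤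
            (X.filter (fun z => badR (Fin.append ξ a') d C1 (c * C2) H z)).card := by
          exact_mod_cast hfib a' hnb
        linarith
    rw [hcard]
    push_cast
    refine (Finset.sum_le_sum hbound).trans ?_
    rw [Finset.sum_add_distrib, Finset.sum_const, nsmul_eq_mul, hXn, ← Finset.sum_filter]
    have h5 : ∑ _a ∈ XX.filter (fun a' => a' ∈ Gf), (X.card : ℝ) ≤ Gf.card * X.card := by
      rw [Finset.sum_const, nsmul_eq_mul]
      refine mul_le_mul_of_nonneg_right ?_ (Nat.cast_nonneg _)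
      exact_mod_cast Finset.card_le_card (fun a haf => (Finset.mem_filter.1 haf).2)
    have h6 : (Gf.card : ℝ) * X.card ≤ δ / 2 * (X.card : ℝ) ^ n * X.card :=
      mul_le_mul_of_nonneg_right hG1 (Nat.cast_nonneg _)
    rw [pow_succ]
    nlinarith [h5, h6]

/-- tuples of logarithms of integers relative to arbitrary complex numbers -/
theorem almostAllRelNIntegers (r n d : ℕ) (δ : ℝ) (hδ : 0 < δ) : ∃ x0 : ℕ, ∀ x : ℕ, x0 ≤ x →
    ∀ A : ℝ, ∃ C : ℝ, 0 < C ∧ ∀ H : ℝ, 2 ≤ H → ∀ ξ : Fin r → ℂ, (∀ i, ‖ξ i‖ ≤ H) →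
    (Set.ncard {a : Fin n → ℕ | (∀ i, 1 ≤ a i ∧ a i ≤ x) ∧
      badRN ξ d A C H (fun i => (Real.log (a i) : ℂ))} : ℝ) ≤ δ * (x : ℝ) ^ n := by
  classical
  obtain ⟨k, ε, hε, hmain⟩ := almostAllRelN r n d δ hδ
  obtain ⟨x0, hx0⟩ := cubiAll k ε hε
  refine ⟨x0, ?_⟩
  intro x hx A
  let f : ℕ → ℂ := fun m => (Real.log m : ℂ)
  have hinj : ∀ a b : ℕ, 1 ≤ a → 1 ≤ b → f a = f b → a = b := by
    intro a b ha hb h
    have h1 : Real.log (a : ℝ) = Real.log (b : ℝ) := by
      have : ((Real.log (a : ℝ) : ℝ) : ℂ) = ((Real.log (b : ℝ) : ℝ) : ℂ) := h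
      exact_mod_cast this
    have h2 := Real.log_injOn_pos (Set.mem_Ioi.2 (by exact_mod_cast ha))
      (Set.mem_Ioi.2 (by exact_mod_cast hb)) h1
    exact_mod_cast h2
  have hXalg : ∀ z ∈ (Finset.Icc 1 x).image f, IsAlgebraic ℚ (Complex.exp z) := by
    intro z hz
    rw [Finset.mem_image] at hz
    obtain ⟨m, hm, rfl⟩ := hz
    rw [Finset.mem_Icc] at hm
    have hpos : (0 : ℝ) < m := by exact_mod_cast hm.1
    have : Complex.exp (f m) = (m : ℂ) := by
      show Complex.exp ((Real.log (m : ℝ) : ℝ) : ℂ) = (m : ℂ)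
      rw [← Complex.ofReal_exp, Real.exp_log hpos]
      simp
    rw [this]
    exact isAlgebraic_nat m
  have hcard : ((Finset.Icc 1 x).image f).card = x := by
    rw [Finset.card_image_of_injOn]
    · simp
    · intro a ha b hb h
      simp only [Finset.coe_Icc, Set.mem_Icc] at ha hb
      exact hinj a b ha.1 hb.1 h
  obtain ⟨C, hC0, hCb⟩ := hmain ((Finset.Icc 1 x).image f) hXalg (hx0 x hx) A
  refine ⟨C, hC0, ?_⟩
  intro H hH ξ hξ
  have hb := hCb H hH ξ hξ
  rw [hcard] at hb
  refine le_trans ?_ hb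
  have hfin : Set.Finite {a : Fin n → ℂ | (∀ i, a i ∈ (Finset.Icc 1 x).image f) ∧
      badRN ξ d A C H a} := by
    refine Set.Finite.subset (Set.Finite.pi' (fun _ : Fin n =>
      ((Finset.Icc 1 x).image f).finite_toSet)) ?_
    intro a ha i
    exact ha.1 i
  have hle : Set.ncard {a : Fin n → ℕ | (∀ i, 1 ≤ a i ∧ a i ≤ x) ∧
      badRN ξ d A C H (fun i => (Real.log (a i) : ℂ))} ≤
      Set.ncard {a : Fin n → ℂ | (∀ i, a i ∈ (Finset.Icc 1 x).image f) ∧
        badRN ξ d A C H a} := by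
    refine Set.ncard_le_ncard_of_injOn (fun a i => f (a i)) ?_ ?_ hfin
    · intro a ha
      refine ⟨fun i => ?_, ha.2⟩
      rw [Finset.mem_image]
      exact ⟨a i, Finset.mem_Icc.2 (ha.1 i), rfl⟩
    · intro a ha b hb hab
      funext i
      exact hinj _ _ (ha.1 i).1 (hb.1 i).1 (congrFun hab i)
  exact_mod_cast hle

end Pool.Agent.H72.BF
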