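import Pool.Agent.H72.BF.Targets4

open Polynomial Finset Filter

namespace Pool.Agent.H72.BF

/-! Targets of the board bf_modules, part 6: almost all logarithms are independent in degree `d`
of arbitrary given complex numbers. -/

/-- a relation of degree at most `d` between `t` and `y` which is nontrivial in `y` -/
def RelR (K : Type) {F : Type} [Field K] [Field F] [Algebra K F] {r : ℕ} (t : Fin r → F) (d : ℕ)
    (y : F) : Prop :=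
  ∃ Q : MvPolynomial (Fin (r + 1)) K, Q.totalDegree ≤ d ∧
    MvPolynomial.aeval (Fin.snoc t y : Fin (r + 1) → F) Q = 0 ∧
    MvPolynomial.aeval (Fin.snoc (fun i => C (t i)) X : Fin (r + 1) → F[X]) Q ≠ 0

/-- reduction to a transcendence basis -/
def T_RNB : Prop := ∀ (K F : Type) [Field K] [CharZero K] [Field F] [Algebra K F] (r d : ℕ)
  (t : Fin r → F), ∃ (s : ℕ) (b : Fin s → Fin r) (D : ℕ), AlgebraicIndependent K (t ∘ b) ∧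
  ∀ y : F, RelR K t d y → RelN K (t ∘ b) D y

/-- the relative cube lemma -/
def T_GCR : Prop := ∀ r d : ℕ, ∃ κ : ℕ, ∀ (K F : Type) [Field K] [CharZero K] [Field F]
  [Algebra K F] (t : Fin r → F) (y0 : F) (k : ℕ) (w : Fin k → F),
  LinearIndependent K w → (∀ I : Finset (Fin k), RelR K t d (y0 + ∑ i ∈ I, w i)) → k ≤ κ

/-- counting in the residue field, relative version -/
def T_CNTR : Prop := ∀ (r d : ℕ) (δ : ℝ), 0 < δ → ∃ (k : ℕ) (ε : ℝ), 0 < ε ∧ ∀ X : Finset ℂ,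
  (∀ z ∈ X, IsAlgebraic ℚ (Complex.exp z)) → Cubical k ε X → ∀ (H : ℕ → ℝ) (P : Pkg H)
  (t : Fin r → P.F),
  (Set.ncard {z : ℂ | z ∈ X ∧ RelR P.kb t d (P.cst z)} : ℝ) ≤ δ * X.card

/-- `z` violates the inequality relative to `ξ`: some `P` is very small at `(ξ, z)` although
`P(ξ, Y)` has a coefficient which is not small -/
def badR {r : ℕ} (ξ : Fin r → ℂ) (d : ℕ) (A C H : ℝ) (z : ℂ) : Prop :=
  ∃ P : MvPolynomial (Fin (r + 1)) ℤ, P.totalDegree ≤ d ∧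
      (∀ m : Fin (r + 1) →₀ ℕ, |((P.coeff m : ℤ) : ℝ)| ≤ H) ∧
      H ^ C * ‖MvPolynomial.aeval (Fin.snoc ξ z : Fin (r + 1) → ℂ) P‖ < 1 ∧
      ∃ j : ℕ, 1 ≤ H ^ A *
        ‖(MvPolynomial.aeval (Fin.snoc (fun i => Polynomial.C (ξ i)) Polynomial.X :
          Fin (r + 1) → ℂ[X]) P).coeff j‖

/-- THEOREM: relative version, uniform in the given complex numbers `ξ` -/
def AlmostAllRel : Prop := ∀ (r d : ℕ) (δ : ℝ), 0 < δ → ∃ (k : ℕ) (ε : ℝ), 0 < ε ∧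
  ∀ X : Finset ℂ, (∀ z ∈ X, IsAlgebraic ℚ (Complex.exp z)) → Cubical k ε X → ∀ A : ℝ,
  ∃ C : ℝ, 0 < C ∧ ∀ H : ℝ, 2 ≤ H → ∀ ξ : Fin r → ℂ, (∀ i, ‖ξ i‖ ≤ H) →
  (Set.ncard {z : ℂ | z ∈ X ∧ badR ξ d A C H z} : ℝ) ≤ δ * X.card

def T_AAR : Prop := AlmostAllRel

def AlmostAllRelIntegers : Prop := ∀ (r d : ℕ) (δ : ℝ), 0 < δ → ∃ x0 : ℕ, ∀ x : ℕ, x0 ≤ x →
  ∀ A : ℝ, ∃ C : ℝ, 0 < C ∧ ∀ H : ℝ, 2 ≤ H → ∀ ξ : Fin r → ℂ, (∀ i, ‖ξ i‖ ≤ H) →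
  (Set.ncard {a : ℕ | 1 ≤ a ∧ a ≤ x ∧ badR ξ d A C H (Real.log a : ℂ)} : ℝ) ≤ δ * x

def T_AARI : Prop := AlmostAllRel → T_CUBI → AlmostAllRelIntegers

def AlmostAllRelBoxes : Prop := ∀ (r d : ℕ) (δ : ℝ), 0 < δ → ∃ M0 : ℕ, ∀ M : ℕ, M0 ≤ M →
  ∀ (mu : Fin M → ℂ), LinearIndependent ℚ mu → (∀ j, IsAlgebraic ℚ (Complex.exp (mu j))) →
  ∀ V : Fin M → Finset ℤ, (∀ i, 2 ≤ (V i).card) → ∀ A : ℝ, ∃ C : ℝ, 0 < C ∧
  ∀ H : ℝ, 2 ≤ H → ∀ ξ : Fin r → ℂ, (∀ i, ‖ξ i‖ ≤ H) →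
  (Set.ncard {v : Fin M → ℤ | (∀ j, v j ∈ V j) ∧
    badR ξ d A C H (∑ j, (v j : ℂ) * mu j)} : ℝ) ≤ δ * ∏ j, ((V j).card : ℝ)

def T_AARB : Prop := AlmostAllRel → T_CUBB → AlmostAllRelBoxes

end Pool.Agent.H72.BF
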