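import Pool.Agent.H14.BF.RFI
import Pool.Agent.H72.BF.Targets6

open Polynomial Finset Filter

namespace Pool.Agent.H72.BF

theorem relR_of_relN {K F : Type} [Field K] [Field F] [Algebra K F] {r d : ℕ} {t : Fin r → F}
    (ht : ∀ P : MvPolynomial (Fin r) K, P.totalDegree ≤ d → MvPolynomial.aeval t P = 0 → P = 0)
    {y : F} (h : RelN K t d y) : RelR K t d y := by
  obtain ⟨Q, hQ0, hQd, hQ⟩ := h
  refine ⟨Q, hQd, hQ, fun hz => hQ0 ?_⟩
  set P := MvPolynomial.finSuccEquiv K r (MvPolynomial.rename (finRotate (r + 1)) Q) with hP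
  have key : ∀ R : MvPolynomial (Fin (r + 1)) K,
      (MvPolynomial.finSuccEquiv K r R).map
        (MvPolynomial.aeval t : MvPolynomial (Fin r) K →ₐ[K] F).toRingHom =
      MvPolynomial.aeval (Fin.cons X (fun i => C (t i)) : Fin (r + 1) → F[X]) R := by
    intro R
    induction R using MvPolynomial.induction_on with
    | C a =>
      simp only [MvPolynomial.finSuccEquiv_apply, MvPolynomial.eval₂Hom_C, RingHom.comp_apply,
        Polynomial.map_C, MvPolynomial.aeval_C, Polynomial.algebraMap_apply]
      simp
    | add p q hp hq => rw [map_add, Polynomial.map_add, hp, hq, map_add]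
    | mul_X p i hp =>
      rw [map_mul, Polynomial.map_mul, hp, map_mul]
      congr 1
      refine Fin.cases ?_ (fun i => ?_) i
      · simp [MvPolynomial.finSuccEquiv_X_zero]
      · simp [MvPolynomial.finSuccEquiv_X_succ]
  have h1 : P.map (MvPolynomial.aeval t : MvPolynomial (Fin r) K →ₐ[K] F).toRingHom = 0 := by
    rw [hP, key, MvPolynomial.aeval_rename]
    rw [Fin.snoc_eq_cons_rotate] at hz
    exact hz
  have h2 : P = 0 := by
    ext1 j
    rw [Polynomial.coeff_zero]
    by_contra hj
    have hdeg : (P.coeff j).totalDegree ≤ d := by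
      have := MvPolynomial.totalDegree_coeff_finSuccEquiv_add_le
        (MvPolynomial.rename (finRotate (r + 1)) Q) j (by exact hj)
      have h3 := MvPolynomial.totalDegree_rename_le (finRotate (r + 1)) Q
      have h4 : (P.coeff j).totalDegree + j ≤
        (MvPolynomial.rename (finRotate (r + 1)) Q).totalDegree := this
      omega
    apply hj
    apply ht _ hdeg
    have := congrArg (fun p => Polynomial.coeff p j) h1
    simpa [Polynomial.coeff_map] using this
  have h3 : MvPolynomial.rename (finRotate (r + 1)) Q = 0 := by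
    rw [hP] at h2
    exact (EmbeddingLike.map_eq_zero_iff).1 h2
  apply MvPolynomial.rename_injective (finRotate (r + 1)) (finRotate (r + 1)).injective
  rw [h3, map_zero]

theorem gclc_of_gcr (h : T_GCR) : T_GCLC := by
  intro r d
  obtain ⟨κ, hκ⟩ := h r d
  exact ⟨κ, d, fun K F _ _ _ _ t ht y0 k w hw hrel =>
    hκ K F t y0 k w hw (fun I => relR_of_relN ht (hrel I))⟩

end Pool.Agent.H72.BF
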