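import Pool.Agent.H72.BF.Assemble2
import Pool.Agent.H72.BF.Targets6
import Pool.Agent.H72.BF.GCLCofGCR
import Pool.Agent.H14.BF.GCL
import Pool.Agent.H14.BF.RFI
import Pool.Agent.H17.BF.CNTF
import Pool.Agent.H33.BF.AAI
import Pool.Agent.H33.BF.GSC
import Pool.Agent.H35.BF.FLD
import Pool.Agent.H35.BF.POLE
import Pool.Agent.H35.BF.ZD
import Pool.Agent.H4.BF.CXR
import Pool.Agent.H4.BF.FIA
import Pool.Agent.H4.BF.FIE
import Pool.Agent.H4.BF.LO
import Pool.Agent.H56.BF.AARB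
import Pool.Agent.H56.BF.RNB
import Pool.Agent.H62.BF.AAB
import Pool.Agent.H62.BF.CUBB
import Pool.Agent.H62.BF.CUBE
import Pool.Agent.H62.BF.CUBI
import Pool.Agent.H67.BF.AAR
import Pool.Agent.H67.BF.CNTR
import Pool.Agent.H67.BF.GCR
import Pool.Agent.H84.BF.AAK
import Pool.Agent.H84.BF.TK

namespace Pool.Agent.H72.BF

theorem gclAll : T_GCL :=
  H14.BF.gcl (H4.BF.cxr H14.BF.rfi) (H35.BF.fld H4.BF.lo H33.BF.GSC.gsc)
    (H35.BF.pole H4.BF.fie H14.BF.rfi H4.BF.fia) (H35.BF.zd H4.BF.fia H4.BF.fie) H4.BF.fia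
    H14.BF.rfi

theorem gcrAll : T_GCR := H67.BF.gcr gclAll Pool.Agent.H56.BF.RNB.rnb

theorem gclcAll : T_GCLC := gclc_of_gcr gcrAll

theorem cubiAll : T_CUBI := H62.BF.cubi (H62.BF.cube H84.BF.tk)

theorem almostAll : AlmostAll :=
  H84.BF.aak H29.BF.pkg H84.BF.evp (H17.BF.cntf bakerFeldman bffAll gclcAll)

theorem almostAllRel : AlmostAllRel :=
  H67.BF.aar H29.BF.pkg H84.BF.evp (H67.BF.cntr bakerFeldman bffAll gcrAll)

theorem almostAllIntegers : AlmostAllIntegers := H33.BF.AAI.aai almostAll cubiAll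

theorem almostAllBoxes : AlmostAllBoxes := H62.BF.aab almostAll H62.BF.cubb

theorem almostAllRelIntegers : AlmostAllRelIntegers := H67.BF.aari almostAllRel cubiAll

theorem almostAllRelBoxes : AlmostAllRelBoxes := Pool.Agent.H56.BF.AARB.aarb almostAllRel H62.BF.cubb

end Pool.Agent.H72.BF
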