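import Pool.Agent.H72.BF.Assemble2
import Pool.Agent.H29.BF.KOS
import Pool.Agent.H41.BF.PSF
import Pool.Agent.H69.BF.CNT

namespace Pool.Agent.H72.BF

theorem pairsSparse : PairsSparse :=
  H41.BF.psf bakerFeldman H29.BF.pkg bffAll H84.BF.mnr H29.BF.kos H57.BF.suma

theorem pairsCount : PairsCount := H69.BF.cnt pairsSparse

end Pool.Agent.H72.BF
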