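import Pool.Agent.H72.BF.Assemble2
import Pool.Agent.H57.BF.QCL
import Pool.Agent.H62.BF.QADM
import Pool.Agent.H69.BF.QMF
import Pool.Agent.H69.BF.SQI

namespace Pool.Agent.H72.BF

theorem quadraticDirections : QuadraticDirections :=
  H69.BF.qmf bakerFeldman H29.BF.pkg bffAll H84.BF.evp H84.BF.mnr
    (H62.BF.qadm H57.BF.qcl H69.BF.sqi)

end Pool.Agent.H72.BF
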