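import Pool.Agent.H72.BF.Targets5
import Mathlib.RingTheory.Valuation.LocalSubring

open Polynomial Finset Filter

namespace Pool.Agent.H72.BF.LFS2

open Pool.Agent.H72.BF

/-- a valuation ring dominating a prime -/
theorem exists_val {A Ω κ : Type} [CommRing A] [Field Ω] [Field κ] (ψ : A →+* Ω)
    (hψ : Function.Injective ψ) (φ : A →+* κ) :
    ∃ (O : ValuationSubring Ω) (h : ∀ a, ψ a ∈ O), ∀ a,
      φ a = 0 ↔ IsLocalRing.residue O (⟨ψ a, h a⟩ : O) = 0 := by
  let p : Ideal A := RingHom.ker φ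
  have hp : p.IsPrime := RingHom.ker_isPrime φ
  have hunit : ∀ y : p.primeCompl, IsUnit (ψ y) := by
    rintro ⟨y, hy⟩
    refine isUnit_iff_ne_zero.mpr ?_
    intro h0
    have : y = 0 := hψ (by rw [h0, map_zero])
    apply hy
    rw [this]
    exact p.zero_mem
  let f : Localization.AtPrime p →+* Ω := IsLocalization.lift hunit
  have hf : ∀ a, f (algebraMap A _ a) = ψ a := fun a => IsLocalization.lift_eq hunit a
  obtain ⟨O, hO, hloc⟩ := IsLocalRing.exists_factor_valuationRing f
  have hmem : ∀ a, ψ a ∈ O := fun a => by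
    rw [← hf]; exact hO _
  refine ⟨O, hmem, fun a => ?_⟩
  rw [IsLocalRing.residue_eq_zero_iff, IsLocalRing.mem_maximalIdeal, mem_nonunits_iff]
  have h1 : (⟨ψ a, hmem a⟩ : O) = f.codRestrict O.toSubring hO (algebraMap A _ a) :=
    Subtype.ext (hf a).symm
  constructor
  · intro h0 hu
    rw [h1] at hu
    have h2 := hloc.map_nonunit _ hu
    have h3 := (IsLocalization.AtPrime.isUnit_to_map_iff (Localization.AtPrime p) p a).mp h2
    exact h3 h0
  · intro hu
    by_contra h0
    apply hu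
    rw [h1]
    have h3 := (IsLocalization.AtPrime.isUnit_to_map_iff (Localization.AtPrime p) p a).mpr h0
    exact h3.map _

/-- scaling by the element of maximal valuation -/
theorem exists_scale {Ω : Type} [Field Ω] (O : ValuationSubring Ω) {m : ℕ} (w : Fin m → Ω) :
    ∃ β : Ω, β ≠ 0 ∧ ∃ (a0 : O) (a : Fin m → O), (a0 : Ω) = β⁻¹ ∧ (∀ j, (a j : Ω) = β⁻¹ * w j) ∧
      (a0 = 1 ∨ ∃ j, a j = 1) := by
  let c : Option (Fin m) → Ω := fun x => x.elim 1 w
  obtain ⟨x, hx⟩ := Finite.exists_max (fun y => O.valuation (c y))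
  have h0 : c x ≠ 0 := by
    intro h
    have := hx none
    simp only [c] at this
    change O.valuation 1 ≤ O.valuation (c x) at this
    rw [h, map_zero, map_one] at this
    exact absurd this (by simp)
  have hmem : ∀ y, (c x)⁻¹ * c y ∈ O := by
    intro y
    rw [← O.valuation_le_one_iff, map_mul, map_inv₀]
    have h1 : O.valuation (c x) ≠ 0 := (Valuation.ne_zero_iff _).mpr h0
    calc (O.valuation (c x))⁻¹ * O.valuation (c y) ≤ (O.valuation (c x))⁻¹ * O.valuation (c x) :=
          mul_le_mul_right (hx y) _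
      _ = 1 := inv_mul_cancel₀ h1
  refine ⟨c x, h0, ⟨(c x)⁻¹ * c none, hmem none⟩, fun j => ⟨(c x)⁻¹ * c (some j), hmem _⟩, ?_, ?_, ?_⟩
  · simp [c]
  · intro j; rfl
  · cases x with
    | none => exact Or.inl (Subtype.ext (inv_mul_cancel₀ h0))
    | some j => exact Or.inr ⟨j, Subtype.ext (inv_mul_cancel₀ h0)⟩

/-- the abstract package -/
theorem pkgV {K A Ω κ : Type} [Field K] [CommRing A] [Field Ω] [Field κ] [Algebra K A]
    [Algebra K κ] (ψ : A →+* Ω) (hψ : Function.Injective ψ) (φ : A →ₐ[K] κ) :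
    ∃ (O k : Type) (_ : CommRing O) (_ : Field k) (ι : O →+* Ω) (ρ : O →+* k) (ψO : A →+* O),
      Function.Injective ι ∧ (∀ a, ι (ψO a) = ψ a) ∧
      (∀ x : Ω, (∃ y, ι y = x) ∨ (∃ y, ι y = x⁻¹)) ∧ (∀ a, φ a = 0 ↔ ρ (ψO a) = 0) ∧
      ∀ (m : ℕ) (w : Fin m → Ω), ∃ β : Ω, β ≠ 0 ∧ ∃ (a0 : O) (a : Fin m → O), ι a0 = β⁻¹ ∧
        (∀ j, ι (a j) = β⁻¹ * w j) ∧ (a0 = 1 ∨ ∃ j, a j = 1) := by
  obtain ⟨O, hO, hOφ⟩ := exists_val ψ hψ φ.toRingHom
  refine ⟨O, IsLocalRing.ResidueField O, inferInstance, inferInstance, O.subtype,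
    IsLocalRing.residue O, ψ.codRestrict O.toSubring hO, Subtype.val_injective, fun a => rfl, ?_,
    hOφ, fun m w => exists_scale O w⟩
  intro x
  rcases O.mem_or_inv_mem x with h | h
  · exact Or.inl ⟨⟨x, h⟩, rfl⟩
  · exact Or.inr ⟨⟨x⁻¹, h⟩, rfl⟩

/-- the reduction of the split form -/
theorem reduce {Ω O k : Type} [Field Ω] [CommRing O] [Field k] (ι : O →+* Ω) (ρ : O →+* k)
    (hι : Function.Injective ι) (hval : ∀ x : Ω, (∃ y, ι y = x) ∨ (∃ y, ι y = x⁻¹))
    (hsc : ∀ (m : ℕ) (w : Fin m → Ω), ∃ β : Ω, β ≠ 0 ∧ ∃ (a0 : O) (a : Fin m → O), ι a0 = β⁻¹ ∧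
        (∀ j, ι (a j) = β⁻¹ * w j) ∧ (a0 = 1 ∨ ∃ j, a j = 1))
    {m e : ℕ} (ω : Fin e → Fin m → Ω) (g : Ω) (G : (MvPolynomial (Fin m) O)[X])
    (hG : G.map (MvPolynomial.map ι) = C (MvPolynomial.C g) *
      ∏ i, (X - C (∑ j, MvPolynomial.C (ω i j) * MvPolynomial.X j)))
    (hne : G.map (MvPolynomial.map (ρ)) ≠ 0) :
    ∃ (a0 : Fin e → O) (a : Fin e → Fin m → O), (∀ i, a0 i = 1 ∨ ∃ j, a i j = 1) ∧
      ∀ (R : Type) [CommRing R] (ev : MvPolynomial (Fin m) (k) →+* R),
        (G.map (MvPolynomial.map (ρ))).map ev = 0 →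
        (∏ i, (C (MvPolynomial.C (ρ (a0 i))) * X -
          C (∑ j, MvPolynomial.C (ρ (a i j)) * MvPolynomial.X j))).map ev = 0 := by
  choose β hβ a0 a ha0 ha h1 using fun i => hsc m (ω i)
  refine ⟨a0, a, h1, ?_⟩
  intro R _ ev hev
  set P : (MvPolynomial (Fin m) O)[X] := ∏ i, (C (MvPolynomial.C (a0 i)) * X -
          C (∑ j, MvPolynomial.C (a i j) * MvPolynomial.X j)) with hP
  set Γ : Ω := g * ∏ i, β i with hΓ
  have hPm : P.map (MvPolynomial.map ι) = C (MvPolynomial.C (∏ i, (β i)⁻¹)) *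
      ∏ i, (X - C (∑ j, MvPolynomial.C (ω i j) * MvPolynomial.X j)) := by
    rw [hP, Polynomial.map_prod, map_prod, map_prod, ← Finset.prod_mul_distrib]
    refine Finset.prod_congr rfl fun i _ => ?_
    rw [Polynomial.map_sub, Polynomial.map_mul, Polynomial.map_C, Polynomial.map_X, Polynomial.map_C,
      MvPolynomial.map_C, map_sum, mul_sub, ← C_mul, Finset.mul_sum]
    have e2 : ∑ j, MvPolynomial.map ι (MvPolynomial.C (a i j) * MvPolynomial.X j) =
        ∑ j, MvPolynomial.C (β i)⁻¹ * (MvPolynomial.C (ω i j) * MvPolynomial.X j) :=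
      Finset.sum_congr rfl fun j _ => by
        rw [map_mul, MvPolynomial.map_C, MvPolynomial.map_X, ha i j, MvPolynomial.C_mul, mul_assoc]
    rw [ha0 i, e2]
  have hinjO : Function.Injective (MvPolynomial.map (σ := Fin m) ι) :=
    MvPolynomial.map_injective _ hι
  have hinj : Function.Injective (Polynomial.map (MvPolynomial.map (σ := Fin m) ι)) :=
    Polynomial.map_injective _ hinjO
  have hredP : (∏ i, (C (MvPolynomial.C (ρ (a0 i))) * X -
          C (∑ j, MvPolynomial.C (ρ (a i j)) * MvPolynomial.X j))) =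
      P.map (MvPolynomial.map (ρ)) := by
    rw [hP, Polynomial.map_prod]
    refine Finset.prod_congr rfl fun i _ => ?_
    simp only [Polynomial.map_sub, Polynomial.map_mul, Polynomial.map_C, Polynomial.map_X,
      MvPolynomial.map_C, map_sum, map_mul, MvPolynomial.map_X, Polynomial.map_sum]
  rw [hredP]
  have hprod : (∏ i, β i) * (∏ i, (β i)⁻¹) = 1 := by
    rw [← Finset.prod_mul_distrib]
    exact Finset.prod_eq_one fun i _ => mul_inv_cancel₀ (hβ i)
  rcases hval Γ with ⟨z, hz⟩ | ⟨z, hz⟩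
  · have h2 : G = C (MvPolynomial.C z) * P := by
      apply hinj
      rw [Polynomial.map_mul, Polynomial.map_C, MvPolynomial.map_C, hPm, hG, ← mul_assoc, ← C_mul,
        ← MvPolynomial.C_mul]
      have h6 : ι z * (∏ i, (β i)⁻¹) = g := by rw [hz, hΓ, mul_assoc, hprod, mul_one]
      rw [h6]
    rw [h2, Polynomial.map_mul, Polynomial.map_C, MvPolynomial.map_C] at hev hne
    rw [Polynomial.map_mul, Polynomial.map_C] at hev
    have h3 : ρ z ≠ 0 := by
      intro h4
      rw [h4, map_zero, map_zero, zero_mul] at hne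
      exact hne rfl
    have h4 : C (ev (MvPolynomial.C (ρ z)⁻¹)) *
        C (ev (MvPolynomial.C (ρ z))) = 1 := by
      rw [← C_mul, ← map_mul, ← MvPolynomial.C_mul, inv_mul_cancel₀ h3, map_one, map_one, map_one]
    calc _ = C (ev (MvPolynomial.C (ρ z)⁻¹)) *
        (C (ev (MvPolynomial.C (ρ z))) *
          (P.map (MvPolynomial.map (ρ))).map ev) := by
          rw [← mul_assoc, h4, one_mul]
      _ = 0 := by rw [hev, mul_zero]
  · rcases eq_or_ne Γ 0 with hΓ0 | hΓ0
    · exfalso
      have hg0 : g = 0 := by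
        have h5 : ∏ i, β i ≠ 0 := Finset.prod_ne_zero_iff.mpr fun i _ => hβ i
        exact (mul_eq_zero.mp hΓ0).resolve_right h5
      apply hne
      have : G = 0 := by
        apply hinj
        rw [hG, hg0, map_zero, map_zero, zero_mul, Polynomial.map_zero]
      rw [this, Polynomial.map_zero]
    · have h2 : P = C (MvPolynomial.C z) * G := by
        apply hinj
        rw [Polynomial.map_mul, Polynomial.map_C, MvPolynomial.map_C, hPm, hG, ← mul_assoc, ← C_mul,
          ← MvPolynomial.C_mul]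
        have h6 : Γ * (∏ i, (β i)⁻¹) = g := by rw [hΓ, mul_assoc, hprod, mul_one]
        have h7 : ι z * g = ∏ i, (β i)⁻¹ := by
          rw [hz, ← h6, ← mul_assoc, inv_mul_cancel₀ hΓ0, one_mul]
        rw [h7]
      rw [h2, Polynomial.map_mul, Polynomial.map_mul, hev, mul_zero]

end Pool.Agent.H72.BF.LFS2

open Pool.Agent.H72.BF Pool.Agent.H72.BF.LFS2 in
theorem Pool.Agent.H72.BF.lfs2 : T_LFS := by
  classical
  intro K A Ω κ _ _ _ _ _ _ ψ φ m e ω g G hψ hG hne
  obtain ⟨O, k, _, _, ι, ρ0, ψO, hι, hιψ, hval, hOφ, hsc⟩ := pkgV ψ hψ φ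
  let ρ : A →+* k := ρ0.comp ψO
  have hρ : ∀ a, φ a = 0 ↔ ρ a = 0 := hOφ
  have hker : ∀ p : MvPolynomial (Fin m) A, MvPolynomial.map ρ p = 0 → MvPolynomial.map φ.toRingHom p = 0 := by
    intro p hp
    ext n
    have := congrArg (MvPolynomial.coeff n) hp
    rw [MvPolynomial.coeff_map, MvPolynomial.coeff_zero] at this
    rw [MvPolynomial.coeff_map, MvPolynomial.coeff_zero]
    exact (hρ _).mpr this
  obtain ⟨a0, a, ha, hred⟩ := reduce ι ρ0 hι hval hsc ω g (G.map (MvPolynomial.map ψO)) (by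
    rw [← hG, Polynomial.map_map]
    congr 1
    ext x : 2
    · simp only [RingHom.comp_apply, MvPolynomial.map_C, hιψ]
    · simp) (by
    rw [Polynomial.map_map]
    intro h0
    apply hne
    ext n : 1
    have := congrArg (fun P => Polynomial.coeff P n) h0
    simp only [Polynomial.coeff_map, Polynomial.coeff_zero, RingHom.comp_apply,
      MvPolynomial.map_map] at this
    rw [Polynomial.coeff_map, Polynomial.coeff_zero]
    exact hker _ this)
  let ρK : K →+* k := ρ.comp (algebraMap K A)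
  let r := ρ0
  let U : Fin e → Submodule K (Fin m → K) := fun i =>
    { carrier := {v | ∑ j, r (a i j) * ρK (v j) = 0}
      add_mem' := by
        intro v w hv hw
        change ∑ j, r (a i j) * ρK (v j + w j) = 0
        have hv' : ∑ j, r (a i j) * ρK (v j) = 0 := hv
        have hw' : ∑ j, r (a i j) * ρK (w j) = 0 := hw
        simp only [map_add, mul_add, Finset.sum_add_distrib, hv', hw', add_zero]
      zero_mem' := by
        change ∑ j, r (a i j) * ρK 0 = 0
        simp
      smul_mem' := by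
        intro c v hv
        change ∑ j, r (a i j) * ρK (c * v j) = 0
        have hv' : ∑ j, r (a i j) * ρK (v j) = 0 := hv
        have : ∑ j, r (a i j) * ρK (c * v j) = ρK c * ∑ j, r (a i j) * ρK (v j) := by
          rw [Finset.mul_sum]
          refine Finset.sum_congr rfl fun j _ => ?_
          rw [map_mul]; ring
        rw [this, hv', mul_zero] }
  refine ⟨(Finset.univ.filter fun i => r (a0 i) = 0).image U, ?_, ?_, ?_⟩
  · refine le_trans Finset.card_image_le (le_trans (Finset.card_filter_le _ _) ?_)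
    simp
  · intro V hV
    obtain ⟨i, hi, rfl⟩ := Finset.mem_image.mp hV
    have hi0 := (Finset.mem_filter.mp hi).2
    rcases ha i with h | ⟨j, hj⟩
    · rw [h, map_one] at hi0
      exact absurd hi0 one_ne_zero
    · intro htop
      have h1 : (Pi.single j 1 : Fin m → K) ∈ U i := by rw [htop]; trivial
      have h2 : ∑ j', r (a i j') * ρK ((Pi.single j 1 : Fin m → K) j') = 0 := h1
      rw [Finset.sum_eq_single j] at h2
      · rw [Pi.single_eq_same, hj, map_one, map_one, one_mul] at h2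
        exact one_ne_zero h2
      · intro b _ hb
        rw [Pi.single_eq_of_ne hb, map_zero, mul_zero]
      · intro h; exact absurd (Finset.mem_univ _) h
  · intro v hv
    have h1 := hred (k) (MvPolynomial.eval (fun j => ρK (v j))) (by
      rw [Polynomial.map_map, Polynomial.map_map]
      ext n : 1
      have h2 := congrArg (fun P => Polynomial.coeff P n) hv
      simp only [Polynomial.coeff_map, Polynomial.coeff_zero] at h2
      rw [Polynomial.coeff_map, Polynomial.coeff_zero]
      have h3 : (MvPolynomial.eval₂Hom φ.toRingHom fun j => algebraMap K κ (v j)) (G.coeff n) =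
          φ (MvPolynomial.eval (fun j => algebraMap K A (v j)) (G.coeff n)) := by
        have : (MvPolynomial.eval₂Hom φ.toRingHom fun j => algebraMap K κ (v j)) =
            φ.toRingHom.comp (MvPolynomial.eval (fun j => algebraMap K A (v j))) := by
          ext x : 2 <;> simp
        rw [this]; rfl
      rw [h3] at h2
      have h4 := (hρ _).mp h2
      have h5 : (((MvPolynomial.eval fun j => ρK (v j)).comp (MvPolynomial.map (ρ0))).comp (MvPolynomial.map ψO)) =
          ρ.comp (MvPolynomial.eval (fun j => algebraMap K A (v j))) := by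
        ext x : 2
        · simp only [RingHom.comp_apply, MvPolynomial.map_C, MvPolynomial.eval_C]; rfl
        · simp only [RingHom.comp_apply, MvPolynomial.map_X, MvPolynomial.eval_X]; rfl
      rw [h5]
      exact h4)
    rw [Polynomial.map_prod] at h1
    obtain ⟨i, _, hi⟩ := Finset.prod_eq_zero_iff.mp h1
    rw [Polynomial.map_sub, Polynomial.map_mul, Polynomial.map_C, Polynomial.map_X, Polynomial.map_C,
      MvPolynomial.eval_C] at hi
    have hc1 := congrArg (fun P => Polynomial.coeff P 1) hi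
    have hc0 := congrArg (fun P => Polynomial.coeff P 0) hi
    simp only [coeff_sub, coeff_C_mul, coeff_X_one, mul_one, coeff_C_succ, sub_zero, coeff_zero] at hc1
    simp only [coeff_sub, coeff_C_mul, coeff_X_zero, mul_zero, coeff_C_zero, zero_sub, coeff_zero,
      neg_eq_zero] at hc0
    rw [map_sum] at hc0
    simp only [map_mul, MvPolynomial.eval_C, MvPolynomial.eval_X] at hc0
    exact ⟨U i, Finset.mem_image_of_mem _ (Finset.mem_filter.mpr ⟨Finset.mem_univ _, hc1⟩), hc0⟩
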