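import Pool.Agent.H72.BF.Assemble2
import Pool.Agent.H72.BF.Targets5
import Pool.Agent.H72.BF.LFS2
import Pool.Agent.H35.BF.NRM
import Pool.Agent.H35.BF.STP
import Pool.Agent.H62.BF.ESF
import Pool.Agent.H62.BF.SPT
import Pool.Agent.H79.BF.CRT
import Pool.Agent.H79.BF.CVR
import Pool.Agent.H79.BF.EXS

namespace Pool.Agent.H72.BF

theorem exsAll : T_EXS :=
  H79.BF.exs (H79.BF.cvr (H35.BF.stp H35.BF.nrm Pool.Agent.H72.BF.lfs2)) (H62.BF.spt H78.BF.spc)

theorem exceptionalSubspaces : ExceptionalSubspaces :=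
  H62.BF.esf bakerFeldman H29.BF.pkg bffAll H84.BF.evp H84.BF.mnr exsAll H79.BF.crt

end Pool.Agent.H72.BF
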