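import Pool.Agent.H72.BF.Defs

open Polynomial Finset Filter

namespace Pool.Agent.H72.BF

noncomputable section

/-! ### the nonstandard residue field of a scale sequence `H` -/

/-- `O` = sequences bounded by a power of `H` along the ultrafilter, `F` = residue field modulo the
sequences smaller than every power of `1/H`. -/
structure Pkg (H : ℕ → ℝ) where
  F : Type
  [fld : Field F]
  [cz : CharZero F]
  [ac : IsAlgClosed F]
  hH : ∀ j, 2 ≤ H j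
  O : Subring (ℕ → ℂ)
  π : O →+* F
  surj : Function.Surjective π
  memO : ∀ z : ℕ → ℂ, z ∈ O ↔ ∃ c : ℕ, ∀ᶠ j in (hyperfilter ℕ : Filter ℕ), ‖z j‖ ≤ H j ^ c
  ker : ∀ z : O, π z = 0 ↔
    ∀ c : ℕ, ∀ᶠ j in (hyperfilter ℕ : Filter ℕ), ‖(z : ℕ → ℂ) j‖ * H j ^ c ≤ 1

attribute [instance] Pkg.fld Pkg.cz Pkg.ac

variable {H : ℕ → ℝ}

open Classical in
/-- the residue of a sequence (zero if the sequence is not in `O`) -/
def Pkg.ev (P : Pkg H) (z : ℕ → ℂ) : P.F := if h : z ∈ P.O then P.π ⟨z, h⟩ else 0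

/-- integer sequences -/
def Pkg.evZ (P : Pkg H) (z : ℕ → ℤ) : P.F := P.ev (fun j => (z j : ℂ))

/-- the residue of a constant -/
def Pkg.cst (P : Pkg H) (z : ℂ) : P.F := P.ev (fun _ => z)

/-- bounded integer sequence -/
def Pkg.Bd (P : Pkg H) (z : ℕ → ℤ) : Prop := (fun j => (z j : ℂ)) ∈ P.O

/-- the field generated by the residues of the bounded integer sequences -/
def Pkg.kk (P : Pkg H) : Subfield P.F := Subfield.closure {x | ∃ z : ℕ → ℤ, P.Bd z ∧ x = P.evZ z}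

/-- its algebraic closure inside `F` -/
abbrev Pkg.kb (P : Pkg H) : IntermediateField P.kk P.F := algebraicClosure P.kk P.F

/-! ### statements of the final theorems -/

/-- the exceptional polynomials: degree at most `d`, height at most `H`, value below `H^(-C)` -/
def Exc (n : ℕ) (lam : Fin n → ℂ) (d : ℕ) (C H : ℝ) : Set (MvPolynomial (Fin n) ℤ) :=
  {P | P.totalDegree ≤ d ∧ (∀ m : Fin n →₀ ℕ, |((P.coeff m : ℤ) : ℝ)| ≤ H) ∧ H ^ C * ‖MvPolynomial.aeval lam P‖ < 1}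

def SubspaceBound : Prop :=
  ∀ (n : ℕ) (lam : Fin n → ℂ), LinearIndependent ℚ lam →
    (∀ j, IsAlgebraic ℚ (Complex.exp (lam j))) → ∀ d : ℕ, ∃ C : ℝ, 0 < C ∧ ∀ H : ℝ, 2 ≤ H →
    ∃ W : Submodule ℚ (MvPolynomial (Fin n) ℚ),
      W ≤ MvPolynomial.restrictTotalDegree (Fin n) ℚ d ∧
      Module.finrank ℚ W + (n * d + 1) ≤ (n + d).choose n ∧
      ∀ P ∈ Exc n lam d C H, MvPolynomial.map (Int.castRingHom ℚ) P ∈ W

/-- the tuple `(lam0, v_1 · mu, ..., v_N · mu)` -/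
def tup {N M : ℕ} (lam0 : ℂ) (mu : Fin M → ℂ) (v : Fin N → Fin M → ℤ) : Fin (N + 1) → ℂ :=
  Fin.cons lam0 (fun i => ∑ j, (v i j : ℂ) * mu j)

def GenericTuples : Prop :=
  ∀ (N M d : ℕ) (lam0 : ℂ) (mu : Fin M → ℂ),
    LinearIndependent ℚ (Fin.cons lam0 mu : Fin (M + 1) → ℂ) →
    IsAlgebraic ℚ (Complex.exp lam0) → (∀ j, IsAlgebraic ℚ (Complex.exp (mu j))) →
    (N + d).choose d ≤ M + 1 → ∃ C : ℝ, 0 < C ∧ ∀ H : ℝ, 2 ≤ H →
    ∃ Ψ : MvPolynomial (Fin N × Fin M) ℤ, Ψ ≠ 0 ∧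
      (∀ i : Fin N, MvPolynomial.IsWeightedHomogeneous (fun x : Fin N × Fin M =>
        if x.1 = i then 1 else 0) Ψ ((N + 1 + d).choose (N + 2))) ∧
      (∀ m : Fin N × Fin M →₀ ℕ, |((Ψ.coeff m : ℤ) : ℝ)| ≤ H ^ C) ∧
      ∀ v : Fin N → Fin M → ℤ, (∀ i j, |(v i j : ℝ)| ≤ H) →
        MvPolynomial.eval (fun x : Fin N × Fin M => v x.1 x.2) Ψ ≠ 0 →
        ∀ P : MvPolynomial (Fin (N + 1)) ℤ, P ≠ 0 → P.totalDegree ≤ d →
          (∀ m : Fin (N + 1) →₀ ℕ, |((P.coeff m : ℤ) : ℝ)| ≤ H) →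
          1 ≤ H ^ C * ‖MvPolynomial.aeval (tup lam0 mu v) P‖

/-- for quadratic polynomials in two logarithms: at most two exceptional lines -/
def QuadraticPairs : Prop :=
  ∀ (lam0 mu1 mu2 : ℂ), LinearIndependent ℚ ![lam0, mu1, mu2] →
    IsAlgebraic ℚ (Complex.exp lam0) → IsAlgebraic ℚ (Complex.exp mu1) →
    IsAlgebraic ℚ (Complex.exp mu2) → ∃ C : ℝ, 0 < C ∧ ∀ H : ℝ, 2 ≤ H →
    ∃ a b : Fin 2 → ℤ, a ≠ 0 ∧ b ≠ 0 ∧ ∀ v : Fin 2 → ℤ, (∀ i, |(v i : ℝ)| ≤ H) →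
      v 0 * a 1 ≠ v 1 * a 0 → v 0 * b 1 ≠ v 1 * b 0 →
      ∀ P : MvPolynomial (Fin 2) ℤ, P ≠ 0 → P.totalDegree ≤ 2 →
        (∀ m : Fin 2 →₀ ℕ, |((P.coeff m : ℤ) : ℝ)| ≤ H) →
        1 ≤ H ^ C * ‖MvPolynomial.aeval ![lam0, (v 0 : ℂ) * mu1 + (v 1 : ℂ) * mu2] P‖

/-- the height, but at least 2 -/
def hgt (P : MvPolynomial (Fin 2) ℤ) : ℝ :=
  ((max 2 (P.support.sup (fun m => (P.coeff m).natAbs)) : ℕ) : ℝ)

/-- heights of exceptional irreducible polynomials in two logarithms grow very fast -/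
def PairsSparse : Prop :=
  ∀ lam : Fin 2 → ℂ, LinearIndependent ℚ lam → (∀ j, IsAlgebraic ℚ (Complex.exp (lam j))) →
    ∀ (d : ℕ) (A : ℝ), 1 ≤ A → ∃ C : ℝ, 0 < C ∧
    ∀ P Q : MvPolynomial (Fin 2) ℤ, Irreducible P → Irreducible Q → ¬ Associated P Q →
      P.totalDegree ≤ d → Q.totalDegree ≤ d →
      hgt P ^ C * ‖MvPolynomial.aeval lam P‖ < 1 → hgt Q ^ C * ‖MvPolynomial.aeval lam Q‖ < 1 →
      hgt P ≤ hgt Q → hgt P ^ A ≤ hgt Q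

/-- at most `1 + ε log log H` exceptional irreducible polynomials of height at most `H` -/
def PairsCount : Prop :=
  ∀ lam : Fin 2 → ℂ, LinearIndependent ℚ lam → (∀ j, IsAlgebraic ℚ (Complex.exp (lam j))) →
    ∀ (d : ℕ) (ε : ℝ), 0 < ε → ∃ C : ℝ, 0 < C ∧ ∀ H : ℝ, 2 ≤ H →
    ∀ S : Finset (MvPolynomial (Fin 2) ℤ), (∀ P ∈ S, Irreducible P ∧ P.totalDegree ≤ d ∧
        hgt P ≤ H ∧ hgt P ^ C * ‖MvPolynomial.aeval lam P‖ < 1) →
      (∀ P ∈ S, ∀ Q ∈ S, Associated P Q → P = Q) →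
      (S.card : ℝ) ≤ 1 + ε * Real.log (Real.log H / Real.log 2)

end

end Pool.Agent.H72.BF
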