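import Pool.Agent.H72.BF.Targets2

open Polynomial Finset Filter

namespace Pool.Agent.H72.BF

/-! Targets of the board bf_modules, part 3: quadratic relations and many logarithms. -/

/-- independence of square roots in distinct square classes -/
def T_SQI : Prop := ∀ (L F : Type) [Field L] [CharZero L] [Field F] [Algebra L F] (ι : Type)
  [Fintype ι] (s : ι → F), (∀ i, ∃ q : L, s i ^ 2 = algebraMap L F q) → (∀ i, s i ≠ 0) →
  (∀ i i', i ≠ i' → ¬ ∃ v : L, s i' = algebraMap L F v * s i) → LinearIndependent L s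

/-- numbers in a quadratic relation with `t` satisfy no linear relation -/
def T_QADM : Prop := ∀ (K F : Type) [Field K] [CharZero K] [IsAlgClosed K] [Field F] [Algebra K F]
  (t : F) (r : ℕ) (y : Fin r → F) (a : Fin r → K),
  (∀ i, ∃ Q : MvPolynomial (Fin 2) K, Q ≠ 0 ∧ Q.totalDegree ≤ 2 ∧
    MvPolynomial.aeval ![t, y i] Q = 0) →
  (∀ i j, i ≠ j → LinearIndependent K ![1, t, y i, y j]) → 2 ≤ r → (∀ i, a i ≠ 0) →
  ∑ i, algebraMap K F (a i) * y i ≠ 0

/-- quadratic relations between a logarithm and the combinations of `M` others: the exceptional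
directions are linearly independent, so there are at most `M` of them -/
def QuadraticDirections : Prop :=
  ∀ (M : ℕ) (lam0 : ℂ) (mu : Fin M → ℂ),
    LinearIndependent ℚ (Fin.cons lam0 mu : Fin (M + 1) → ℂ) →
    IsAlgebraic ℚ (Complex.exp lam0) → (∀ j, IsAlgebraic ℚ (Complex.exp (mu j))) →
    ∃ C : ℝ, 0 < C ∧ ∀ H : ℝ, 2 ≤ H → ∃ (s : ℕ) (a : Fin s → Fin M → ℤ),
      LinearIndependent ℤ a ∧
      ∀ v : Fin M → ℤ, v ≠ 0 → (∀ i, |(v i : ℝ)| ≤ H) → (∀ i, LinearIndependent ℤ ![a i, v]) →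
        ∀ P : MvPolynomial (Fin 2) ℤ, P ≠ 0 → P.totalDegree ≤ 2 →
          (∀ m : Fin 2 →₀ ℕ, |((P.coeff m : ℤ) : ℝ)| ≤ H) →
          1 ≤ H ^ C * ‖MvPolynomial.aeval ![lam0, ∑ j, (v j : ℂ) * mu j] P‖

def T_QMF : Prop := QuadraticDirections

end Pool.Agent.H72.BF
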